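import Mathlib

open MeasureTheory Set
open scoped ContDiff

namespace Pool.Agent.Steklov

/-- Dirichlet energy `∫_Ω |∇u|²` of a function `u` on the plane. -/
noncomputable def energy (Ω : Set ℂ) (u : ℂ → ℝ) : ℝ :=
  ∫ z in Ω, ‖fderiv ℝ u z‖ ^ 2

/-- Boundary integral `∫_{∂Ω} u²` with respect to arc length (one-dimensional Hausdorff measure). -/
noncomputable def bdryNormSq (Ω : Set ℂ) (u : ℂ → ℝ) : ℝ :=
  ∫ z in frontier Ω, u z ^ 2 ∂(Measure.hausdorffMeasure 1 : Measure ℂ)

/-- The perimeter of `Ω` : the one-dimensional Hausdorff measure of its boundary. -/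
noncomputable def perimeter (Ω : Set ℂ) : ℝ :=
  ((Measure.hausdorffMeasure 1 : Measure ℂ) (frontier Ω)).toReal

/-- The Steklov eigenvalue `σ_k(Ω)` (numbered from `σ₀ = 0`, with multiplicity), given by the
min-max principle: the infimum, over all `(k+1)`-tuples of smooth functions whose boundary values
are linearly independent, of the largest Rayleigh quotient `∫_Ω |∇u|² / ∫_{∂Ω} u²` on their
span. -/
noncomputable def steklovEigenvalue (Ω : Set ℂ) (k : ℕ) : ℝ :=
  sInf {c : ℝ | ∃ u : Fin (k + 1) → ℂ → ℝ, (∀ i, ContDiff ℝ ∞ (u i)) ∧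
    ∀ a : Fin (k + 1) → ℝ, a ≠ 0 →
      0 < bdryNormSq Ω (fun z => ∑ i, a i * u i z) ∧
      energy Ω (fun z => ∑ i, a i * u i z) ≤ c * bdryNormSq Ω (fun z => ∑ i, a i * u i z)}

end Pool.Agent.Steklov
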