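import Mathlib

open MeasureTheory Set

namespace Pool.Agent.Steklov

/-- Arc-length integral over a segment. -/
lemma integral_segment (P Q : ℂ) (hPQ : P ≠ Q) (f : ℂ → ℝ) :
    ∫ z in segment ℝ P Q, f z ∂(Measure.hausdorffMeasure 1 : Measure ℂ)
      = ‖Q - P‖ * ∫ t in (0:ℝ)..1, f (P + t * (Q - P)) := by
  set ℓ : ℝ := ‖Q - P‖ with hℓ
  have hℓpos : 0 < ℓ := norm_pos_iff.mpr (sub_ne_zero.mpr hPQ.symm)
  have hℓC : (ℓ : ℂ) ≠ 0 := by exact_mod_cast hℓpos.ne'
  set e : ℂ := (Q - P) / ℓ with he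
  have hQP : Q - P = ℓ * e := by rw [he]; field_simp
  have hne : ‖e‖ = 1 := by
    rw [he, norm_div, Complex.norm_real, Real.norm_of_nonneg hℓpos.le, ← hℓ]
    exact div_self hℓpos.ne'
  set γ : ℝ → ℂ := fun t => P + t * e with hγdef
  have hγ : Isometry γ := by
    refine Isometry.of_dist_eq fun s t => ?_
    simp only [hγdef, dist_eq_norm]
    have : P + (s:ℂ) * e - (P + (t:ℂ) * e) = ((s - t : ℝ) : ℂ) * e := by push_cast; ring
    rw [this, norm_mul, hne, mul_one, Complex.norm_real]
  have hseg : segment ℝ P Q = γ '' Icc 0 ℓ := by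
    rw [segment_eq_image]
    ext z
    constructor
    · rintro ⟨θ, hθ, rfl⟩
      refine ⟨θ * ℓ, ⟨mul_nonneg hθ.1 hℓpos.le, ?_⟩, ?_⟩
      · have := mul_le_mul_of_nonneg_right hθ.2 hℓpos.le
        simpa using this
      · simp only [hγdef, Complex.real_smul]
        have : Q = P + ℓ * e := by rw [← hQP]; ring
        rw [this]; push_cast; ring
    · rintro ⟨t, ht, rfl⟩
      refine ⟨t / ℓ, ⟨div_nonneg ht.1 hℓpos.le, (div_le_one hℓpos).mpr ht.2⟩, ?_⟩
      simp only [hγdef, Complex.real_smul]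
      have : Q = P + ℓ * e := by rw [← hQP]; ring
      rw [this]; push_cast; field_simp; ring
  have hmap : Measure.map γ (volume : Measure ℝ)
      = (Measure.hausdorffMeasure 1 : Measure ℂ).restrict (range γ) := by
    rw [← hausdorffMeasure_real]
    exact hγ.map_hausdorffMeasure (Or.inl zero_le_one)
  have hemb : MeasurableEmbedding γ := hγ.isClosedEmbedding.measurableEmbedding
  have hmeas : MeasurableSet (segment ℝ P Q) := by
    rw [hseg]; exact hemb.measurableSet_image.mpr measurableSet_Icc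
  have hsub : segment ℝ P Q ∩ range γ = segment ℝ P Q := by
    rw [hseg]; exact inter_eq_left.mpr (image_subset_range _ _)
  have h1 : ∫ z in segment ℝ P Q, f z ∂(Measure.hausdorffMeasure 1 : Measure ℂ)
      = ∫ z in segment ℝ P Q, f z ∂(Measure.map γ (volume : Measure ℝ)) := by
    rw [hmap, Measure.restrict_restrict hmeas, hsub]
  rw [h1, hemb.setIntegral_map, hseg, preimage_image_eq _ hγ.injective,
    integral_Icc_eq_integral_Ioc, ← intervalIntegral.integral_of_le hℓpos.le]
  have h2 := intervalIntegral.integral_comp_mul_left (a := 0) (b := 1) (fun t => f (γ t)) hℓpos.ne'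
  simp only [mul_zero, mul_one, smul_eq_mul] at h2
  have h3 : (fun x : ℝ => f (γ (ℓ * x))) = fun x : ℝ => f (P + x * (Q - P)) := by
    funext x
    simp only [hγdef]
    rw [hQP]; push_cast; ring_nf
  rw [h3] at h2
  rw [h2, ← mul_assoc, mul_inv_cancel₀ hℓpos.ne', one_mul]

end Pool.Agent.Steklov
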