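import Mathlib
import Pool.Agent.Steklov.Segment

open MeasureTheory Set

namespace Pool.Agent.Steklov

/-- The cross product of two plane vectors. -/
def cr (v w : ℂ) : ℝ := v.re * w.im - v.im * w.re

lemma cr_add_sum (A B C z : ℂ) :
    cr (B - z) (C - z) + cr (C - z) (A - z) + cr (A - z) (B - z) = cr (B - A) (C - A) := by
  simp only [cr, Complex.sub_re, Complex.sub_im]; ring

lemma cr_bary (A B C z : ℂ) :
    (cr (B - A) (C - A) : ℂ) * z = (cr (B - z) (C - z) : ℂ) * A + (cr (C - z) (A - z) : ℂ) * B
      + (cr (A - z) (B - z) : ℂ) * C := by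
  apply Complex.ext <;> simp [cr] <;> ring

lemma cr_convex (B C : ℂ) : Convex ℝ {z : ℂ | 0 ≤ cr (B - z) (C - z)} := by
  intro x hx y hy a b ha hb hab
  simp only [mem_ofPred_eq] at hx hy ⊢
  have : cr (B - (a • x + b • y)) (C - (a • x + b • y))
      = a * cr (B - x) (C - x) + b * cr (B - y) (C - y) := by
    have hb' : b = 1 - a := by linarith
    subst hb'
    simp only [cr, Complex.sub_re, Complex.sub_im, Complex.add_re, Complex.add_im,
      Complex.real_smul, Complex.mul_re, Complex.mul_im, Complex.ofReal_re, Complex.ofReal_im]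
    ring
  rw [this]; positivity

lemma cr_continuous (B C : ℂ) : Continuous fun z : ℂ => cr (B - z) (C - z) := by
  unfold cr; fun_prop

/-- The closed triangle in terms of cross products. -/
lemma convexHull_tri (A B C : ℂ) (hJ : 0 < cr (B - A) (C - A)) :
    convexHull ℝ {A, B, C} = {z : ℂ | 0 ≤ cr (B - z) (C - z) ∧ 0 ≤ cr (C - z) (A - z) ∧
      0 ≤ cr (A - z) (B - z)} := by
  apply Subset.antisymm
  · apply convexHull_min
    · intro z hz
      have key : ∀ X Y : ℂ, cr (X - X) (Y - X) = 0 ∧ cr (Y - X) (X - X) = 0 := by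
        intro X Y; simp [cr]
      simp only [mem_insert_iff, mem_singleton_iff] at hz
      have h1 := cr_add_sum A B C A
      have h2 := cr_add_sum A B C B
      have h3 := cr_add_sum A B C C
      rcases hz with rfl | rfl | rfl
      · simp only [mem_ofPred_eq]; refine ⟨hJ.le, ?_, ?_⟩ <;> simp [cr]
      · simp only [mem_ofPred_eq]; refine ⟨?_, ?_, ?_⟩
        · simp [cr]
        · have := (key z C).1; have := (key z A).2; simp only [key] at h2 ⊢; linarith
        · simp [cr]
      · simp only [mem_ofPred_eq]; refine ⟨?_, ?_, ?_⟩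
        · simp [cr]
        · simp [cr]
        · simp only [key] at h3 ⊢; linarith
    · have := ((cr_convex B C).inter (cr_convex C A)).inter (cr_convex A B)
      have hset : {z : ℂ | 0 ≤ cr (B - z) (C - z) ∧ 0 ≤ cr (C - z) (A - z) ∧
          0 ≤ cr (A - z) (B - z)} = ({z | 0 ≤ cr (B - z) (C - z)} ∩ {z | 0 ≤ cr (C - z) (A - z)})
            ∩ {z | 0 ≤ cr (A - z) (B - z)} := by
        ext z
        exact ⟨fun h => ⟨⟨h.1, h.2.1⟩, h.2.2⟩, fun h => ⟨h.1.1, h.1.2, h.2⟩⟩
      rw [hset]; exact this
  · rintro z ⟨h1, h2, h3⟩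
    have hs := cr_add_sum A B C z
    have hb := cr_bary A B C z
    set J := cr (B - A) (C - A)
    set a := cr (B - z) (C - z)
    set b := cr (C - z) (A - z)
    set c := cr (A - z) (B - z)
    have hconv := convex_convexHull ℝ ({A, B, C} : Set ℂ)
    have hA : A ∈ convexHull ℝ ({A, B, C} : Set ℂ) := subset_convexHull _ _ (by simp)
    have hB : B ∈ convexHull ℝ ({A, B, C} : Set ℂ) := subset_convexHull _ _ (by simp)
    have hC : C ∈ convexHull ℝ ({A, B, C} : Set ℂ) := subset_convexHull _ _ (by simp)
    have hJC : (J : ℂ) ≠ 0 := by exact_mod_cast hJ.ne'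
    have hmem := hconv.sum_mem (t := (Finset.univ : Finset (Fin 3))) (w := ![a / J, b / J, c / J])
      (z := ![A, B, C]) (by
        intro i _; fin_cases i <;> simp <;> positivity) (by
        simp [Fin.sum_univ_three]; field_simp; linarith) (by
        intro i _; fin_cases i <;> simp [hA, hB, hC])
    have hz : z = ∑ i : Fin 3, (![a / J, b / J, c / J] i) • (![A, B, C] i) := by
      simp [Fin.sum_univ_three]
      field_simp
      linear_combination hb
    rw [hz]; exact hmem

lemma interior_tri (A B C : ℂ) (hJ : 0 < cr (B - A) (C - A)) :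
    interior (convexHull ℝ {A, B, C}) = {z : ℂ | 0 < cr (B - z) (C - z) ∧ 0 < cr (C - z) (A - z) ∧
      0 < cr (A - z) (B - z)} := by
  apply Subset.antisymm
  · intro z hz
    have aux : ∀ X Y Z : ℂ, 0 < cr (Y - X) (Z - X) →
        (∀ w ∈ convexHull ℝ {A, B, C}, 0 ≤ cr (Y - w) (Z - w)) → 0 < cr (Y - z) (Z - z) := by
      intro X Y Z hpos hK
      have hev : ∀ᶠ δ : ℝ in nhds 0, z + δ * (z - X) ∈ convexHull ℝ {A, B, C} := by
        have hc : Continuous fun δ : ℝ => z + δ * (z - X) := by fun_prop
        have := hc.tendsto 0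
        simp only [Complex.ofReal_zero, zero_mul, add_zero] at this
        exact (this.eventually (mem_interior_iff_mem_nhds.mp hz))
      obtain ⟨ε, hε, hball⟩ := Metric.eventually_nhds_iff.mp hev
      have hmem := hball (y := ε / 2) (by simp [abs_of_pos hε]; linarith)
      have h1 := hK _ hmem
      have h2 : cr (Y - (z + (ε / 2 : ℝ) * (z - X))) (Z - (z + (ε / 2 : ℝ) * (z - X)))
          = (1 + ε / 2) * cr (Y - z) (Z - z) - ε / 2 * cr (Y - X) (Z - X) := by
        simp only [cr, Complex.sub_re, Complex.sub_im, Complex.add_re, Complex.add_im,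
          Complex.mul_re, Complex.mul_im, Complex.ofReal_re, Complex.ofReal_im]
        ring
      rw [h2] at h1
      by_contra hneg
      push Not at hneg
      have : (1 + ε / 2) * cr (Y - z) (Z - z) ≤ 0 := mul_nonpos_of_nonneg_of_nonpos (by positivity) hneg
      have : 0 < ε / 2 * cr (Y - X) (Z - X) := by positivity
      linarith
    have hK := convexHull_tri A B C hJ
    have hJ2 : cr (C - B) (A - B) = cr (B - A) (C - A) := by
      simp only [cr, Complex.sub_re, Complex.sub_im]; ring
    have hJ3 : cr (A - C) (B - C) = cr (B - A) (C - A) := by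
      simp only [cr, Complex.sub_re, Complex.sub_im]; ring
    refine ⟨aux A B C hJ ?_, aux B C A (hJ2 ▸ hJ) ?_, aux C A B (hJ3 ▸ hJ) ?_⟩
    · intro w hw; rw [hK] at hw; exact hw.1
    · intro w hw; rw [hK] at hw; exact hw.2.1
    · intro w hw; rw [hK] at hw; exact hw.2.2
  · apply interior_maximal
    · intro z hz
      rw [convexHull_tri A B C hJ]
      exact ⟨hz.1.le, hz.2.1.le, hz.2.2.le⟩
    · have h1 := isOpen_lt (continuous_const (y := (0:ℝ))) (cr_continuous B C)
      have h2 := isOpen_lt (continuous_const (y := (0:ℝ))) (cr_continuous C A)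
      have h3 := isOpen_lt (continuous_const (y := (0:ℝ))) (cr_continuous A B)
      exact h1.inter (h2.inter h3)

lemma tri_nonempty (A B C : ℂ) (hJ : 0 < cr (B - A) (C - A)) :
    (interior (convexHull ℝ {A, B, C})).Nonempty := by
  refine ⟨(A + B + C) / 3, ?_⟩
  rw [interior_tri A B C hJ]
  have e1 : cr (B - (A + B + C) / 3) (C - (A + B + C) / 3) = cr (B - A) (C - A) / 3 := by
    simp [cr]; ring
  have e2 : cr (C - (A + B + C) / 3) (A - (A + B + C) / 3) = cr (B - A) (C - A) / 3 := by
    simp [cr]; ring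
  have e3 : cr (A - (A + B + C) / 3) (B - (A + B + C) / 3) = cr (B - A) (C - A) / 3 := by
    simp [cr]; ring
  refine ⟨?_, ?_, ?_⟩
  · rw [e1]; positivity
  · rw [e2]; positivity
  · rw [e3]; positivity

lemma isClosed_tri (A B C : ℂ) : IsClosed (convexHull ℝ ({A, B, C} : Set ℂ)) := by
  have : ({A, B, C} : Set ℂ).Finite := by simp
  exact this.isClosed_convexHull ℝ

lemma isCompact_tri (A B C : ℂ) : IsCompact (convexHull ℝ ({A, B, C} : Set ℂ)) := by
  have : ({A, B, C} : Set ℂ).Finite := by simp
  exact this.isCompact_convexHull ℝ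

lemma closure_interior_tri (A B C : ℂ) (hJ : 0 < cr (B - A) (C - A)) :
    closure (interior (convexHull ℝ {A, B, C})) = convexHull ℝ {A, B, C} := by
  rw [(convex_convexHull ℝ _).closure_interior_eq_closure_of_nonempty_interior
    (tri_nonempty A B C hJ), (isClosed_tri A B C).closure_eq]

lemma mem_segment_of_cr (A B C z : ℂ) (hJ : 0 < cr (B - A) (C - A))
    (h1 : 0 ≤ cr (B - z) (C - z)) (h2 : 0 ≤ cr (C - z) (A - z)) (h3 : cr (A - z) (B - z) = 0) :
    z ∈ segment ℝ A B := by
  have hs := cr_add_sum A B C z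
  have hb := cr_bary A B C z
  rw [h3] at hs hb
  have hJC : (cr (B - A) (C - A) : ℂ) ≠ 0 := by exact_mod_cast hJ.ne'
  refine ⟨cr (B - z) (C - z) / cr (B - A) (C - A), cr (C - z) (A - z) / cr (B - A) (C - A),
    by positivity, by positivity, by field_simp; linarith, ?_⟩
  simp only [Complex.real_smul]
  push_cast
  field_simp
  push_cast at hb
  linear_combination -hb

lemma segment_cr (A B z : ℂ) (hz : z ∈ segment ℝ A B) : cr (A - z) (B - z) = 0 := by
  obtain ⟨a, b, ha, hb, hab, rfl⟩ := hz
  have : b = 1 - a := by linarith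
  subst this
  simp [cr]; ring

lemma segment_subset_tri (A B C : ℂ) : segment ℝ A B ⊆ convexHull ℝ {A, B, C} :=
  (convex_convexHull ℝ _).segment_subset (subset_convexHull _ _ (by simp))
    (subset_convexHull _ _ (by simp))

lemma tri_rot (A B C : ℂ) : ({B, C, A} : Set ℂ) = {A, B, C} := by
  ext; simp; tauto

lemma cr_rot (A B C : ℂ) : cr (C - B) (A - B) = cr (B - A) (C - A) := by
  simp only [cr, Complex.sub_re, Complex.sub_im]; ring

lemma frontier_tri (A B C : ℂ) (hJ : 0 < cr (B - A) (C - A)) :
    frontier (interior (convexHull ℝ {A, B, C}))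
      = segment ℝ A B ∪ segment ℝ B C ∪ segment ℝ C A := by
  have hJ2 : 0 < cr (C - B) (A - B) := by rw [cr_rot]; exact hJ
  have hJ3 : 0 < cr (A - C) (B - C) := by rw [cr_rot]; exact hJ2
  rw [frontier, interior_interior, closure_interior_tri A B C hJ]
  ext z
  constructor
  · rintro ⟨hz, hz'⟩
    rw [interior_tri A B C hJ] at hz'
    rw [convexHull_tri A B C hJ] at hz
    obtain ⟨h1, h2, h3⟩ := hz
    simp only [mem_ofPred_eq, not_and, not_lt] at hz'
    by_cases c1 : cr (B - z) (C - z) = 0
    · left; right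
      exact mem_segment_of_cr B C A z hJ2 h2 h3 c1
    by_cases c2 : cr (C - z) (A - z) = 0
    · right
      exact mem_segment_of_cr C A B z hJ3 h3 h1 c2
    · left; left
      have := hz' (lt_of_le_of_ne h1 (Ne.symm c1)) (lt_of_le_of_ne h2 (Ne.symm c2))
      exact mem_segment_of_cr A B C z hJ h1 h2 (le_antisymm this h3)
  · intro hz
    rw [interior_tri A B C hJ]
    rcases hz with (hz | hz) | hz
    · refine ⟨segment_subset_tri A B C hz, fun h => ?_⟩
      have := segment_cr A B z hz
      have := h.2.2; linarith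
    · refine ⟨?_, fun h => ?_⟩
      · rw [← tri_rot]; exact segment_subset_tri B C A hz
      have := segment_cr B C z hz
      have := h.1; linarith
    · refine ⟨?_, fun h => ?_⟩
      · rw [← tri_rot, ← tri_rot]; exact segment_subset_tri C A B hz
      have := segment_cr C A z hz
      have := h.2.1; linarith

lemma segment_inter (A B C : ℂ) (hJ : 0 < cr (B - A) (C - A)) :
    segment ℝ A B ∩ segment ℝ B C ⊆ {B} := by
  rintro z ⟨h1, h2⟩
  have e1 := segment_cr A B z h1
  have e2 := segment_cr B C z h2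
  have hs := cr_add_sum A B C z
  have hb := cr_bary A B C z
  rw [e1, e2] at hs hb
  have hJC : (cr (B - A) (C - A) : ℂ) ≠ 0 := by exact_mod_cast hJ.ne'
  have e3 : cr (C - z) (A - z) = cr (B - A) (C - A) := by linarith
  rw [e3] at hb
  simp only [Complex.ofReal_zero, zero_mul, zero_add, add_zero] at hb
  exact mul_left_cancel₀ hJC hb

lemma cr_ne (A B C : ℂ) (hJ : 0 < cr (B - A) (C - A)) : A ≠ B := by
  rintro rfl; simp [cr] at hJ

lemma integrableOn_segment (P Q : ℂ) (f : ℂ → ℝ) (hf : Continuous f) :
    IntegrableOn f (segment ℝ P Q) (Measure.hausdorffMeasure 1 : Measure ℂ) := by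
  have hcomp : IsCompact (segment ℝ P Q) := by
    rw [segment_eq_image]
    exact isCompact_Icc.image (by fun_prop)
  obtain ⟨M, hM⟩ := hcomp.exists_bound_of_continuousOn hf.continuousOn
  refine Measure.integrableOn_of_bounded (M := M) ?_ hf.aestronglyMeasurable ?_
  · rw [hausdorffMeasure_segment]; exact edist_ne_top _ _
  · rw [ae_restrict_iff' hcomp.measurableSet]
    exact Filter.Eventually.of_forall hM

/-- The boundary integral over a positively oriented triangle. -/
lemma integral_frontier_tri (A B C : ℂ) (hJ : 0 < cr (B - A) (C - A)) (f : ℂ → ℝ)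
    (hf : Continuous f) :
    ∫ z in frontier (interior (convexHull ℝ {A, B, C})), f z
        ∂(Measure.hausdorffMeasure 1 : Measure ℂ)
      = ‖B - A‖ * (∫ t in (0:ℝ)..1, f (A + t * (B - A)))
        + ‖C - B‖ * (∫ t in (0:ℝ)..1, f (B + t * (C - B)))
        + ‖A - C‖ * (∫ t in (0:ℝ)..1, f (C + t * (A - C))) := by
  have hJ2 : 0 < cr (C - B) (A - B) := by rw [cr_rot]; exact hJ
  have hJ3 : 0 < cr (A - C) (B - C) := by rw [cr_rot]; exact hJ2
  have hm : ∀ P Q : ℂ, MeasurableSet (segment ℝ P Q) := by
    intro P Q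
    rw [segment_eq_image]
    exact (isCompact_Icc.image (by fun_prop)).measurableSet
  have hnull : ∀ P : ℂ, (Measure.hausdorffMeasure 1 : Measure ℂ) {P} = 0 := by
    intro P
    have : NullSingletonClass (Measure.hausdorffMeasure 1 : Measure ℂ) :=
      Measure.nullSingletonClass_hausdorff ℂ zero_lt_one
    exact measure_singleton P
  rw [frontier_tri A B C hJ]
  rw [setIntegral_union₀ _ (hm C A).nullMeasurableSet _ (integrableOn_segment _ _ f hf),
    setIntegral_union₀ _ (hm B C).nullMeasurableSet (integrableOn_segment _ _ f hf)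
      (integrableOn_segment _ _ f hf),
    integral_segment A B (cr_ne A B C hJ), integral_segment B C (cr_ne B C A hJ2),
    integral_segment C A (cr_ne C A B hJ3)]
  · exact measure_mono_null (segment_inter A B C hJ) (hnull B)
  · have : (segment ℝ A B ∪ segment ℝ B C) ∩ segment ℝ C A ⊆ {A} ∪ {C} := by
      rintro z ⟨hz | hz, hz'⟩
      · left; exact segment_inter C A B hJ3 ⟨hz', hz⟩
      · right; exact segment_inter B C A hJ2 ⟨hz, hz'⟩
    exact measure_mono_null this (measure_union_null (hnull A) (hnull C))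
  · exact (integrableOn_segment _ _ f hf).union (integrableOn_segment _ _ f hf)

end Pool.Agent.Steklov
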