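import Mathlib
import Pool.Agent.Steklov.Triangle

open MeasureTheory Set

namespace Pool.Agent.Steklov

/-- The standard open simplex, seen in the complex plane. -/
def S : Set ℂ := {w : ℂ | 0 < w.re ∧ 0 < w.im ∧ w.re + w.im < 1}

lemma isOpen_S : IsOpen S := by
  have h1 := isOpen_lt (continuous_const (y := (0:ℝ))) Complex.continuous_re
  have h2 := isOpen_lt (continuous_const (y := (0:ℝ))) Complex.continuous_im
  have h3 := isOpen_lt (Complex.continuous_re.add Complex.continuous_im)
    (continuous_const (y := (1:ℝ)))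
  exact h1.inter (h2.inter h3)

lemma S_subset : S ⊆ Metric.closedBall (0:ℂ) 2 := by
  rintro w ⟨h1, h2, h3⟩
  rw [mem_closedBall_zero_iff]
  calc ‖w‖ ≤ |w.re| + |w.im| := Complex.norm_le_abs_re_add_abs_im w
    _ ≤ 2 := by rw [abs_of_pos h1, abs_of_pos h2]; linarith

lemma integrableOn_S (F : ℂ → ℝ) (hF : Continuous F) : IntegrableOn F S := by
  have := hF.continuousOn.integrableOn_compact (μ := volume) (isCompact_closedBall (0:ℂ) 2)
  exact this.mono_set S_subset

lemma integral_S_aux (F : ℂ → ℝ) :
    ∫ w in S, F w = ∫ p : ℝ × ℝ, S.indicator F (p.1 + p.2 * Complex.I) := by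
  rw [← integral_indicator isOpen_S.measurableSet]
  rw [← Complex.volume_preserving_equiv_real_prod.symm.integral_comp
    Complex.measurableEquivRealProd.symm.measurableEmbedding]
  congr 1
  funext p
  congr 1
  apply Complex.ext <;> simp

lemma integrable_S_aux (F : ℂ → ℝ) (hF : Continuous F) :
    Integrable (fun p : ℝ × ℝ => S.indicator F (p.1 + p.2 * Complex.I)) := by
  have h1 : Integrable (S.indicator F) := (integrable_indicator_iff isOpen_S.measurableSet).mpr
    (integrableOn_S F hF)
  have h2 := (Complex.volume_preserving_equiv_real_prod.symm.integrable_comp_emb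
    Complex.measurableEquivRealProd.symm.measurableEmbedding).mpr h1
  refine h2.congr (Filter.Eventually.of_forall fun p => ?_)
  simp only [Function.comp]
  congr 1
  apply Complex.ext <;> simp

lemma integral_S_xy (F : ℂ → ℝ) (hF : Continuous F) :
    ∫ w in S, F w = ∫ x in (0:ℝ)..1, ∫ y in (0:ℝ)..(1 - x), F (x + y * Complex.I) := by
  rw [integral_S_aux, Measure.volume_eq_prod, integral_prod _ (by
    rw [← Measure.volume_eq_prod]; exact integrable_S_aux F hF)]
  rw [intervalIntegral.integral_of_le zero_le_one, integral_Ioc_eq_integral_Ioo,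
    ← integral_indicator measurableSet_Ioo]
  congr 1
  funext x
  by_cases hx : x ∈ Ioo (0:ℝ) 1
  · rw [indicator_of_mem hx, intervalIntegral.integral_of_le (by linarith [hx.2]),
      integral_Ioc_eq_integral_Ioo, ← integral_indicator measurableSet_Ioo]
    congr 1
    funext y
    by_cases hy : y ∈ Ioo (0:ℝ) (1 - x)
    · rw [indicator_of_mem hy, indicator_of_mem]
      exact ⟨by simpa using hx.1, by simpa using hy.1, by simp; linarith [hy.2]⟩
    · rw [indicator_of_notMem hy, indicator_of_notMem]
      rintro ⟨h1, h2, h3⟩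
      apply hy
      simp at h1 h2 h3
      exact ⟨h2, by linarith⟩
  · rw [indicator_of_notMem hx]
    have : ∀ y : ℝ, S.indicator F (x + y * Complex.I) = 0 := by
      intro y
      apply indicator_of_notMem
      rintro ⟨h1, h2, h3⟩
      apply hx
      simp at h1 h2 h3
      exact ⟨h1, by linarith⟩
    simp [this]

lemma integral_S_yx (F : ℂ → ℝ) (hF : Continuous F) :
    ∫ w in S, F w = ∫ y in (0:ℝ)..1, ∫ x in (0:ℝ)..(1 - y), F (x + y * Complex.I) := by
  rw [integral_S_aux, Measure.volume_eq_prod, integral_prod_symm _ (by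
    rw [← Measure.volume_eq_prod]; exact integrable_S_aux F hF)]
  rw [intervalIntegral.integral_of_le zero_le_one, integral_Ioc_eq_integral_Ioo,
    ← integral_indicator measurableSet_Ioo]
  congr 1
  funext y
  by_cases hy : y ∈ Ioo (0:ℝ) 1
  · rw [indicator_of_mem hy, intervalIntegral.integral_of_le (by linarith [hy.2]),
      integral_Ioc_eq_integral_Ioo, ← integral_indicator measurableSet_Ioo]
    congr 1
    funext x
    by_cases hx : x ∈ Ioo (0:ℝ) (1 - y)
    · rw [indicator_of_mem hx, indicator_of_mem]
      exact ⟨by simpa using hx.1, by simpa using hy.1, by simp; linarith [hx.2]⟩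
    · rw [indicator_of_notMem hx, indicator_of_notMem]
      rintro ⟨h1, h2, h3⟩
      apply hx
      simp at h1 h2 h3
      exact ⟨h1, by linarith⟩
  · rw [indicator_of_notMem hy]
    have : ∀ x : ℝ, S.indicator F (x + y * Complex.I) = 0 := by
      intro x
      apply indicator_of_notMem
      rintro ⟨h1, h2, h3⟩
      apply hy
      simp at h1 h2 h3
      exact ⟨h2, by linarith⟩
    simp [this]

/-- Integral of an `x`-derivative over the simplex. -/
lemma integral_S_dx (G : ℂ → ℝ) (hG : ContDiff ℝ 1 G) :
    ∫ w in S, fderiv ℝ G w 1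
      = ∫ y in (0:ℝ)..1, (G ((1 - y : ℝ) + y * Complex.I) - G (y * Complex.I)) := by
  have hc : Continuous fun w => fderiv ℝ G w 1 :=
    (hG.continuous_fderiv one_ne_zero).clm_apply continuous_const
  rw [integral_S_yx _ hc]
  apply intervalIntegral.integral_congr
  intro y _
  simp only
  have hd : ∀ x : ℝ, HasDerivAt (fun x : ℝ => G (x + y * Complex.I))
      (fderiv ℝ G (x + y * Complex.I) 1) x := by
    intro x
    have h1 : HasFDerivAt G (fderiv ℝ G (x + y * Complex.I)) ((x:ℂ) + y * Complex.I) :=
      (hG.differentiable one_ne_zero _).hasFDerivAt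
    have h2 : HasDerivAt (fun x : ℝ => (x:ℂ) + y * Complex.I) 1 x :=
      (Complex.ofRealCLM.hasDerivAt (x := x)).add_const _
    exact h1.comp_hasDerivAt x h2
  rw [intervalIntegral.integral_eq_sub_of_hasDerivAt (fun x _ => hd x)]
  · simp
  · apply Continuous.intervalIntegrable
    exact hc.comp (by fun_prop)

/-- Integral of a `y`-derivative over the simplex. -/
lemma integral_S_dy (G : ℂ → ℝ) (hG : ContDiff ℝ 1 G) :
    ∫ w in S, fderiv ℝ G w Complex.I
      = ∫ x in (0:ℝ)..1, (G (x + (1 - x : ℝ) * Complex.I) - G x) := by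
  have hc : Continuous fun w => fderiv ℝ G w Complex.I :=
    (hG.continuous_fderiv one_ne_zero).clm_apply continuous_const
  rw [integral_S_xy _ hc]
  apply intervalIntegral.integral_congr
  intro x _
  simp only
  have hd : ∀ y : ℝ, HasDerivAt (fun y : ℝ => G (x + y * Complex.I))
      (fderiv ℝ G (x + y * Complex.I) Complex.I) y := by
    intro y
    have h1 : HasFDerivAt G (fderiv ℝ G (x + y * Complex.I)) ((x:ℂ) + y * Complex.I) :=
      (hG.differentiable one_ne_zero _).hasFDerivAt
    have h2 : HasDerivAt (fun y : ℝ => (x:ℂ) + y * Complex.I) Complex.I y := by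
      have := ((Complex.ofRealCLM.hasDerivAt (x := y)).mul_const Complex.I).const_add (x:ℂ)
      simpa using this
    exact h1.comp_hasDerivAt y h2
  rw [intervalIntegral.integral_eq_sub_of_hasDerivAt (fun y _ => hd y)]
  · simp
  · apply Continuous.intervalIntegrable
    exact hc.comp (by fun_prop)

/-- The linear map `w ↦ w.re • e₁ + w.im • e₂`. -/
noncomputable def lin (e₁ e₂ : ℂ) : ℂ →L[ℝ] ℂ :=
  Complex.reCLM.smulRight e₁ + Complex.imCLM.smulRight e₂

@[simp] lemma lin_apply (e₁ e₂ w : ℂ) : lin e₁ e₂ w = w.re * e₁ + w.im * e₂ := by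
  simp [lin]

lemma det_lin (e₁ e₂ : ℂ) : (lin e₁ e₂).det = cr e₁ e₂ := by
  rw [ContinuousLinearMap.det, ← LinearMap.det_toMatrix Complex.basisOneI, Matrix.det_fin_two]
  simp [LinearMap.toMatrix_apply, cr]
  ring

/-- Affine parametrisation of the triangle. -/
noncomputable def par (A B C : ℂ) (w : ℂ) : ℂ := A + lin (B - A) (C - A) w

lemma tri_eq_image (A B C : ℂ) (hJ : 0 < cr (B - A) (C - A)) :
    interior (convexHull ℝ {A, B, C}) = par A B C '' S := by
  rw [interior_tri A B C hJ]
  ext z
  constructor
  · rintro ⟨h1, h2, h3⟩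
    have hs := cr_add_sum A B C z
    have hb := cr_bary A B C z
    have hJC : (cr (B - A) (C - A) : ℂ) ≠ 0 := by exact_mod_cast hJ.ne'
    refine ⟨⟨cr (C - z) (A - z) / cr (B - A) (C - A), cr (A - z) (B - z) / cr (B - A) (C - A)⟩,
      ⟨?_, ?_, ?_⟩, ?_⟩
    · simp only; positivity
    · simp only; positivity
    · simp only
      rw [← add_div, div_lt_one hJ]; linarith
    · simp only [par, lin_apply]
      have hs' : (cr (B - z) (C - z) : ℂ) = (cr (B - A) (C - A) : ℂ) - (cr (C - z) (A - z) : ℂ)
          - (cr (A - z) (B - z) : ℂ) := by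
        rw [← hs]; push_cast; ring
      rw [hs'] at hb
      push_cast
      field_simp
      linear_combination -hb
  · rintro ⟨w, ⟨h1, h2, h3⟩, rfl⟩
    have e1 : cr (B - par A B C w) (C - par A B C w) = (1 - w.re - w.im) * cr (B - A) (C - A) := by
      simp [cr, par]; ring
    have e2 : cr (C - par A B C w) (A - par A B C w) = w.re * cr (B - A) (C - A) := by
      simp [cr, par]; ring
    have e3 : cr (A - par A B C w) (B - par A B C w) = w.im * cr (B - A) (C - A) := by
      simp [cr, par]; ring
    refine ⟨?_, ?_, ?_⟩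
    · rw [e1]; exact mul_pos (by linarith) hJ
    · rw [e2]; exact mul_pos h1 hJ
    · rw [e3]; exact mul_pos h2 hJ

lemma par_injective (A B C : ℂ) (hJ : 0 < cr (B - A) (C - A)) : Function.Injective (par A B C) := by
  intro w w' h
  simp only [par, add_right_inj, lin_apply] at h
  have h1 := congrArg Complex.re h
  have h2 := congrArg Complex.im h
  simp at h1 h2
  simp only [cr, Complex.sub_re, Complex.sub_im] at hJ
  apply Complex.ext
  · have : (w.re - w'.re) * ((B.re - A.re) * (C.im - A.im) - (B.im - A.im) * (C.re - A.re)) = 0 := by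
      linear_combination (C.im - A.im) * h1 - (C.re - A.re) * h2
    rcases mul_eq_zero.mp this with h | h
    · linarith
    · linarith
  · have : (w.im - w'.im) * ((B.re - A.re) * (C.im - A.im) - (B.im - A.im) * (C.re - A.re)) = 0 := by
      linear_combination (B.re - A.re) * h2 - (B.im - A.im) * h1
    rcases mul_eq_zero.mp this with h | h
    · linarith
    · linarith

lemma integral_tri (A B C : ℂ) (hJ : 0 < cr (B - A) (C - A)) (g : ℂ → ℝ) :
    ∫ z in interior (convexHull ℝ {A, B, C}), g z
      = cr (B - A) (C - A) * ∫ w in S, g (par A B C w) := by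
  have h := integral_image_eq_integral_abs_det_fderiv_smul volume isOpen_S.measurableSet
      (f := par A B C) (f' := fun _ => lin (B - A) (C - A)) (fun w _ =>
        ((lin (B - A) (C - A)).hasFDerivAt.const_add A).hasFDerivWithinAt)
      (par_injective A B C hJ).injOn g
  rw [tri_eq_image A B C hJ, h]
  simp only [det_lin, abs_of_pos hJ, smul_eq_mul]
  rw [integral_const_mul]

end Pool.Agent.Steklov
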