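import Mathlib
import Pool.Agent.Steklov.Area

open MeasureTheory Set

namespace Pool.Agent.Steklov

lemma clm_decomp (L : ℂ →L[ℝ] ℝ) (e : ℂ) : L e = e.re * L 1 + e.im * L Complex.I := by
  have : e = e.re • (1:ℂ) + e.im • Complex.I := by
    apply Complex.ext <;> simp
  calc L e = L (e.re • (1:ℂ) + e.im • Complex.I) := by rw [← this]
    _ = e.re * L 1 + e.im * L Complex.I := by rw [map_add, map_smul, map_smul]; simp

/-- The inner product of two gradients. -/
noncomputable def gradInner (u v : ℂ → ℝ) (z : ℂ) : ℝ :=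
  fderiv ℝ u z 1 * fderiv ℝ v z 1 + fderiv ℝ u z Complex.I * fderiv ℝ v z Complex.I

/-- Outward flux `∫ u ∂_ν v` through the oriented side from `P` to `Q`. -/
noncomputable def flux (u v : ℂ → ℝ) (P Q : ℂ) : ℝ :=
  ∫ t in (0:ℝ)..1, u (P + t * (Q - P)) * fderiv ℝ v (P + t * (Q - P)) (-Complex.I * (Q - P))

/-- Divergence theorem on a positively oriented triangle. -/
lemma divergence_tri (A B C : ℂ) (hJ : 0 < cr (B - A) (C - A)) (G₁ G₂ : ℂ → ℝ)
    (h₁ : ContDiff ℝ 1 G₁) (h₂ : ContDiff ℝ 1 G₂) :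
    ∫ z in interior (convexHull ℝ {A, B, C}), (fderiv ℝ G₁ z 1 + fderiv ℝ G₂ z Complex.I)
      = (∫ t in (0:ℝ)..1, (G₁ (A + t * (B - A)) * (B - A).im - G₂ (A + t * (B - A)) * (B - A).re))
      + (∫ t in (0:ℝ)..1, (G₁ (B + t * (C - B)) * (C - B).im - G₂ (B + t * (C - B)) * (C - B).re))
      + (∫ t in (0:ℝ)..1, (G₁ (C + t * (A - C)) * (A - C).im
          - G₂ (C + t * (A - C)) * (A - C).re)) := by
  rw [integral_tri A B C hJ]
  have hpar : ContDiff ℝ 1 (par A B C) := by
    unfold par; fun_prop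
  set α : ℂ → ℝ := fun w => G₁ (par A B C w) * (C - A).im - G₂ (par A B C w) * (C - A).re with hα
  set β : ℂ → ℝ := fun w => (B - A).re * G₂ (par A B C w) - (B - A).im * G₁ (par A B C w) with hβ
  have hαc : ContDiff ℝ 1 α :=
    ((h₁.comp hpar).mul contDiff_const).sub ((h₂.comp hpar).mul contDiff_const)
  have hβc : ContDiff ℝ 1 β :=
    (contDiff_const.mul (h₂.comp hpar)).sub (contDiff_const.mul (h₁.comp hpar))
  have hp : ∀ w, HasFDerivAt (par A B C) (lin (B - A) (C - A)) w := fun w =>
    (lin (B - A) (C - A)).hasFDerivAt.const_add A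
  have hg : ∀ (G : ℂ → ℝ), ContDiff ℝ 1 G → ∀ w, HasFDerivAt (fun w => G (par A B C w))
      ((fderiv ℝ G (par A B C w)).comp (lin (B - A) (C - A))) w := by
    intro G hG w
    exact ((hG.differentiable one_ne_zero _).hasFDerivAt).comp w (hp w)
  have hint : cr (B - A) (C - A) * ∫ w in S, (fderiv ℝ G₁ (par A B C w) 1
      + fderiv ℝ G₂ (par A B C w) Complex.I) = ∫ w in S, (fderiv ℝ α w 1 + fderiv ℝ β w Complex.I) := by
    rw [← integral_const_mul]
    congr 1
    funext w
    have dα : fderiv ℝ α w = (C - A).im • ((fderiv ℝ G₁ (par A B C w)).comp (lin (B - A) (C - A)))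
        - (C - A).re • ((fderiv ℝ G₂ (par A B C w)).comp (lin (B - A) (C - A))) :=
      (((hg G₁ h₁ w).mul_const (C - A).im).sub ((hg G₂ h₂ w).mul_const (C - A).re)).fderiv
    have dβ : fderiv ℝ β w = (B - A).re • ((fderiv ℝ G₂ (par A B C w)).comp (lin (B - A) (C - A)))
        - (B - A).im • ((fderiv ℝ G₁ (par A B C w)).comp (lin (B - A) (C - A))) :=
      (((hg G₂ h₂ w).const_mul (B - A).re).sub ((hg G₁ h₁ w).const_mul (B - A).im)).fderiv
    rw [dα, dβ]
    simp only [sub_apply, smul_apply,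
      ContinuousLinearMap.comp_apply, lin_apply, Complex.one_re, Complex.one_im, Complex.I_re,
      Complex.I_im, Complex.ofReal_one, Complex.ofReal_zero, one_mul, zero_mul, add_zero, zero_add,
      smul_eq_mul]
    rw [clm_decomp (fderiv ℝ G₁ (par A B C w)) (B - A), clm_decomp (fderiv ℝ G₂ (par A B C w)) (B - A),
      clm_decomp (fderiv ℝ G₁ (par A B C w)) (C - A), clm_decomp (fderiv ℝ G₂ (par A B C w)) (C - A)]
    simp only [cr]
    ring
  rw [hint]
  have hcα : Continuous fun w => fderiv ℝ α w 1 :=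
    (hαc.continuous_fderiv one_ne_zero).clm_apply continuous_const
  have hcβ : Continuous fun w => fderiv ℝ β w Complex.I :=
    (hβc.continuous_fderiv one_ne_zero).clm_apply continuous_const
  rw [integral_add (integrableOn_S _ hcα) (integrableOn_S _ hcβ), integral_S_dx α hαc,
    integral_S_dy β hβc]
  have c1 : Continuous G₁ := h₁.continuous
  have c2 : Continuous G₂ := h₂.continuous
  have cα : Continuous α := hαc.continuous
  have cβ : Continuous β := hβc.continuous
  have i1 : ∀ g : ℝ → ℝ, Continuous g → IntervalIntegrable g volume 0 1 := fun g hg =>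
    hg.intervalIntegrable _ _
  have r1 : ∫ x in (0:ℝ)..1, β (x + (1 - x : ℝ) * Complex.I)
      = ∫ x in (0:ℝ)..1, β ((1 - x : ℝ) + x * Complex.I) := by
    have := intervalIntegral.integral_comp_sub_left (a := 0) (b := 1)
      (fun x : ℝ => β ((1 - x : ℝ) + x * Complex.I)) 1
    simp only [sub_self, sub_zero, sub_sub_cancel] at this
    exact this
  have r2 : ∫ y in (0:ℝ)..1, α (y * Complex.I) = ∫ y in (0:ℝ)..1, α ((1 - y : ℝ) * Complex.I) := by
    have := intervalIntegral.integral_comp_sub_left (a := 0) (b := 1)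
      (fun y : ℝ => α ((y : ℝ) * Complex.I)) 1
    simp only [sub_self, sub_zero] at this
    exact this.symm
  have s1 : ∫ y in (0:ℝ)..1, (α ((1 - y : ℝ) + y * Complex.I) - α (y * Complex.I))
      = (∫ y in (0:ℝ)..1, α ((1 - y : ℝ) + y * Complex.I)) - ∫ y in (0:ℝ)..1, α (y * Complex.I) :=
    intervalIntegral.integral_sub (i1 _ (by fun_prop)) (i1 _ (by fun_prop))
  have s2 : ∫ x in (0:ℝ)..1, (β (x + (1 - x : ℝ) * Complex.I) - β x)
      = (∫ x in (0:ℝ)..1, β (x + (1 - x : ℝ) * Complex.I)) - ∫ x in (0:ℝ)..1, β x :=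
    intervalIntegral.integral_sub (i1 _ (by fun_prop)) (i1 _ (by fun_prop))
  rw [s1, s2, r1, r2]
  have e1 : (∫ y in (0:ℝ)..1, α ((1 - y : ℝ) + y * Complex.I))
      + (∫ y in (0:ℝ)..1, β ((1 - y : ℝ) + y * Complex.I))
      = ∫ t in (0:ℝ)..1, (G₁ (B + t * (C - B)) * (C - B).im - G₂ (B + t * (C - B)) * (C - B).re) := by
    rw [← intervalIntegral.integral_add (i1 _ (by fun_prop)) (i1 _ (by fun_prop))]
    apply intervalIntegral.integral_congr
    intro t _
    have : par A B C (((1 - t : ℝ) : ℂ) + t * Complex.I) = B + t * (C - B) := by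
      simp [par]; ring
    simp only [hα, hβ, this, Complex.sub_re, Complex.sub_im]
    ring
  have e2 : -(∫ y in (0:ℝ)..1, α ((1 - y : ℝ) * Complex.I))
      = ∫ t in (0:ℝ)..1, (G₁ (C + t * (A - C)) * (A - C).im - G₂ (C + t * (A - C)) * (A - C).re) := by
    rw [← intervalIntegral.integral_neg]
    apply intervalIntegral.integral_congr
    intro t _
    have : par A B C (((1 - t : ℝ) : ℂ) * Complex.I) = C + t * (A - C) := by
      simp [par]; ring
    simp only [hα, this, Complex.sub_re, Complex.sub_im]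
    ring
  have e3 : -(∫ x in (0:ℝ)..1, β x)
      = ∫ t in (0:ℝ)..1, (G₁ (A + t * (B - A)) * (B - A).im - G₂ (A + t * (B - A)) * (B - A).re) := by
    rw [← intervalIntegral.integral_neg]
    apply intervalIntegral.integral_congr
    intro t _
    have : par A B C (t : ℂ) = A + t * (B - A) := by
      simp [par]
    simp only [hβ, this, Complex.sub_re, Complex.sub_im]
    ring
  rw [← e1, ← e2, ← e3]
  ring

/-- Green's identity on a positively oriented triangle. -/
lemma green (A B C : ℂ) (hJ : 0 < cr (B - A) (C - A)) (u v : ℂ → ℝ)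
    (hu : ContDiff ℝ 1 u) (hv : ContDiff ℝ 2 v)
    (hΔ : ∀ z, fderiv ℝ (fun z => fderiv ℝ v z 1) z 1
      + fderiv ℝ (fun z => fderiv ℝ v z Complex.I) z Complex.I = 0) :
    ∫ z in interior (convexHull ℝ {A, B, C}), gradInner u v z
      = flux u v A B + flux u v B C + flux u v C A := by
  have hv1 : ∀ e : ℂ, ContDiff ℝ 1 (fun z => fderiv ℝ v z e) := by
    intro e
    exact (hv.fderiv_right (m := 1) (by norm_num)).clm_apply contDiff_const
  have h := divergence_tri A B C hJ (fun z => u z * fderiv ℝ v z 1)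
    (fun z => u z * fderiv ℝ v z Complex.I) (hu.mul (hv1 1)) (hu.mul (hv1 Complex.I))
  have hd : ∀ e z, HasFDerivAt (fun z => u z * fderiv ℝ v z e)
      (u z • fderiv ℝ (fun z => fderiv ℝ v z e) z + fderiv ℝ v z e • fderiv ℝ u z) z := by
    intro e z
    exact ((hu.differentiable one_ne_zero z).hasFDerivAt).mul
      (((hv1 e).differentiable one_ne_zero z).hasFDerivAt)
  have hI : ∫ z in interior (convexHull ℝ {A, B, C}), gradInner u v z
      = ∫ z in interior (convexHull ℝ {A, B, C}),
        (fderiv ℝ (fun z => u z * fderiv ℝ v z 1) z 1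
          + fderiv ℝ (fun z => u z * fderiv ℝ v z Complex.I) z Complex.I) := by
    congr 1
    funext z
    rw [(hd 1 z).fderiv, (hd Complex.I z).fderiv]
    simp only [gradInner, add_apply, smul_apply,
      smul_eq_mul]
    linear_combination -(u z) * hΔ z
  have hf : ∀ P Q : ℂ, flux u v P Q
      = ∫ t in (0:ℝ)..1, (u (P + t * (Q - P)) * fderiv ℝ v (P + t * (Q - P)) 1 * (Q - P).im
        - u (P + t * (Q - P)) * fderiv ℝ v (P + t * (Q - P)) Complex.I * (Q - P).re) := by
    intro P Q
    unfold flux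
    apply intervalIntegral.integral_congr
    intro t _
    simp only
    rw [clm_decomp _ (-Complex.I * (Q - P))]
    simp
    ring
  rw [hI, h, hf, hf, hf]

end Pool.Agent.Steklov
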