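import Mathlib
import Pool.Agent.Steklov.Defs
import Pool.Agent.Steklov.Green

open MeasureTheory Set
open scoped ContDiff

namespace Pool.Agent.Steklov

lemma norm_sq_clm (L : ℂ →L[ℝ] ℝ) : ‖L‖ ^ 2 = L 1 * L 1 + L Complex.I * L Complex.I := by
  set w := (InnerProductSpace.toDual ℝ ℂ).symm L with hw
  have hL : ∀ z, L z = inner ℝ w z := by
    intro z
    rw [hw, InnerProductSpace.toDual_symm_apply]
  have hn : ‖L‖ = ‖w‖ := by rw [hw, LinearIsometryEquiv.norm_map]
  rw [hn, hL, hL, Complex.inner, Complex.inner]
  rw [Complex.sq_norm, Complex.normSq_apply]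
  simp

/-- Lower bound zero for the min-max set. -/
lemma steklov_bddBelow (Ω : Set ℂ) (k : ℕ) :
    BddBelow {c : ℝ | ∃ u : Fin (k + 1) → ℂ → ℝ, (∀ i, ContDiff ℝ ∞ (u i)) ∧
    ∀ a : Fin (k + 1) → ℝ, a ≠ 0 →
      0 < bdryNormSq Ω (fun z => ∑ i, a i * u i z) ∧
      energy Ω (fun z => ∑ i, a i * u i z) ≤ c * bdryNormSq Ω (fun z => ∑ i, a i * u i z)} := by
  refine ⟨0, ?_⟩
  rintro c ⟨u, _, h⟩
  obtain ⟨hpos, hle⟩ := h (fun _ => 1) (fun h => by simpa using congrFun h 0)
  have hE : 0 ≤ energy Ω (fun z => ∑ i, (1:ℝ) * u i z) := by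
    unfold energy
    positivity
  by_contra hc
  push Not at hc
  have : c * bdryNormSq Ω (fun z => ∑ i, (1:ℝ) * u i z) < 0 := mul_neg_of_neg_of_pos hc hpos
  linarith

/-- Boundary bilinear form. -/
noncomputable def bd (Ω : Set ℂ) (u v : ℂ → ℝ) : ℝ :=
  ∫ z in frontier Ω, u z * v z ∂(Measure.hausdorffMeasure 1 : Measure ℂ)

lemma integrableOn_frontier_tri (A B C : ℂ) (hJ : 0 < cr (B - A) (C - A)) (f : ℂ → ℝ)
    (hf : Continuous f) : IntegrableOn f (frontier (interior (convexHull ℝ {A, B, C})))
      (Measure.hausdorffMeasure 1 : Measure ℂ) := by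
  rw [frontier_tri A B C hJ]
  exact ((integrableOn_segment _ _ f hf).union (integrableOn_segment _ _ f hf)).union
    (integrableOn_segment _ _ f hf)

/-- A smooth harmonic function satisfying the Steklov condition with eigenvalue `μ` on the
positively oriented triangle `A B C`. -/
structure IsSteklov (A B C : ℂ) (u : ℂ → ℝ) (μ : ℝ) : Prop where
  smooth : ContDiff ℝ ∞ u
  harm : ∀ z, fderiv ℝ (fun z => fderiv ℝ u z 1) z 1
      + fderiv ℝ (fun z => fderiv ℝ u z Complex.I) z Complex.I = 0
  bc1 : ∀ t : ℝ, fderiv ℝ u (A + t * (B - A)) (-Complex.I * (B - A))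
    = μ * ‖B - A‖ * u (A + t * (B - A))
  bc2 : ∀ t : ℝ, fderiv ℝ u (B + t * (C - B)) (-Complex.I * (C - B))
    = μ * ‖C - B‖ * u (B + t * (C - B))
  bc3 : ∀ t : ℝ, fderiv ℝ u (C + t * (A - C)) (-Complex.I * (A - C))
    = μ * ‖A - C‖ * u (C + t * (A - C))

lemma green_steklov (A B C : ℂ) (hJ : 0 < cr (B - A) (C - A)) (u v : ℂ → ℝ) (μ : ℝ)
    (hu : ContDiff ℝ ∞ u) (hv : IsSteklov A B C v μ) :
    ∫ z in interior (convexHull ℝ {A, B, C}), gradInner u v z
      = μ * bd (interior (convexHull ℝ {A, B, C})) u v := by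
  rw [green A B C hJ u v (contDiff_infty.mp hu 1) (contDiff_infty.mp hv.smooth 2) hv.harm]
  unfold bd
  rw [integral_frontier_tri A B C hJ (fun z => u z * v z) (hu.continuous.mul hv.smooth.continuous)]
  have f1 : flux u v A B = μ * (‖B - A‖ * ∫ t in (0:ℝ)..1, u (A + t * (B - A)) * v (A + t * (B - A))) := by
    unfold flux
    rw [← mul_assoc, ← intervalIntegral.integral_const_mul]
    apply intervalIntegral.integral_congr
    intro t _
    simp only [hv.bc1 t]; ring
  have f2 : flux u v B C = μ * (‖C - B‖ * ∫ t in (0:ℝ)..1, u (B + t * (C - B)) * v (B + t * (C - B))) := by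
    unfold flux
    rw [← mul_assoc, ← intervalIntegral.integral_const_mul]
    apply intervalIntegral.integral_congr
    intro t _
    simp only [hv.bc2 t]; ring
  have f3 : flux u v C A = μ * (‖A - C‖ * ∫ t in (0:ℝ)..1, u (C + t * (A - C)) * v (C + t * (A - C))) := by
    unfold flux
    rw [← mul_assoc, ← intervalIntegral.integral_const_mul]
    apply intervalIntegral.integral_congr
    intro t _
    simp only [hv.bc3 t]; ring
  rw [f1, f2, f3]
  ring

lemma gradInner_comm (u v : ℂ → ℝ) (z : ℂ) : gradInner u v z = gradInner v u z := by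
  unfold gradInner; ring

lemma bd_comm (Ω : Set ℂ) (u v : ℂ → ℝ) : bd Ω u v = bd Ω v u := by
  unfold bd
  congr 1
  funext z
  ring

/-- Steklov functions with different eigenvalues are orthogonal on the boundary. -/
lemma bd_eq_zero_of_ne (A B C : ℂ) (hJ : 0 < cr (B - A) (C - A)) (u v : ℂ → ℝ) (μ ν : ℝ)
    (hu : IsSteklov A B C u μ) (hv : IsSteklov A B C v ν) (hne : μ ≠ ν) :
    bd (interior (convexHull ℝ {A, B, C})) u v = 0 := by
  have h1 := green_steklov A B C hJ u v ν hu.smooth hv
  have h2 := green_steklov A B C hJ v u μ hv.smooth hu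
  have h3 : ∫ z in interior (convexHull ℝ {A, B, C}), gradInner u v z
      = ∫ z in interior (convexHull ℝ {A, B, C}), gradInner v u z := by
    congr 1; funext z; exact gradInner_comm u v z
  rw [h3, h2, bd_comm _ v u] at h1
  have : (μ - ν) * bd (interior (convexHull ℝ {A, B, C})) u v = 0 := by linarith
  rcases mul_eq_zero.mp this with h | h
  · exact absurd (sub_eq_zero.mp h) hne
  · exact h

/-- The min-max upper bound from an orthogonal family of Steklov functions. -/
theorem steklov_le (A B C : ℂ) (hJ : 0 < cr (B - A) (C - A)) (k : ℕ)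
    (u : Fin (k + 1) → ℂ → ℝ) (μ : Fin (k + 1) → ℝ) (M : ℝ)
    (hu : ∀ i, IsSteklov A B C (u i) (μ i)) (hM : ∀ i, μ i ≤ M)
    (horth : ∀ i j, i ≠ j → bd (interior (convexHull ℝ {A, B, C})) (u i) (u j) = 0)
    (hpos : ∀ i, 0 < bd (interior (convexHull ℝ {A, B, C})) (u i) (u i)) :
    steklovEigenvalue (interior (convexHull ℝ {A, B, C})) k ≤ M := by
  set T := interior (convexHull ℝ ({A, B, C} : Set ℂ)) with hT
  apply csInf_le (steklov_bddBelow T k)
  refine ⟨u, fun i => (hu i).smooth, fun a ha => ?_⟩
  have hcont : ∀ i, Continuous (u i) := fun i => (hu i).smooth.continuous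
  -- bilinear expansion
  have hexp : ∀ c : Fin (k + 1) → ℝ,
      bd T (fun z => ∑ i, a i * u i z) (fun z => ∑ j, c j * u j z)
        = ∑ i, a i * c i * bd T (u i) (u i) := by
    intro c
    have h1 : bd T (fun z => ∑ i, a i * u i z) (fun z => ∑ j, c j * u j z)
        = ∑ i, ∑ j, a i * c j * bd T (u i) (u j) := by
      unfold bd
      have : (fun z => (∑ i, a i * u i z) * ∑ j, c j * u j z)
          = fun z => ∑ i, ∑ j, a i * c j * (u i z * u j z) := by
        funext z
        rw [Finset.sum_mul_sum]
        apply Finset.sum_congr rfl; intro i _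
        apply Finset.sum_congr rfl; intro j _
        ring
      rw [this, integral_finsetSum]
      · apply Finset.sum_congr rfl; intro i _
        rw [integral_finsetSum]
        · apply Finset.sum_congr rfl; intro j _
          rw [integral_const_mul]
        · intro j _
          exact (integrableOn_frontier_tri A B C hJ _ ((hcont i).mul (hcont j))).const_mul _
      · intro i _
        apply integrable_finsetSum
        intro j _
        exact (integrableOn_frontier_tri A B C hJ _ ((hcont i).mul (hcont j))).const_mul _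
    rw [h1]
    apply Finset.sum_congr rfl
    intro i _
    rw [Finset.sum_eq_single i]
    · intro j _ hj
      rw [horth i j (Ne.symm hj), mul_zero]
    · intro h; exact absurd (Finset.mem_univ i) h
  have hB : bdryNormSq T (fun z => ∑ i, a i * u i z) = ∑ i, a i * a i * bd T (u i) (u i) := by
    rw [← hexp a]
    unfold bdryNormSq bd
    congr 1; funext z; ring
  have hsm : ContDiff ℝ ∞ (fun z => ∑ i, a i * u i z) := by
    apply ContDiff.sum
    intro i _
    exact contDiff_const.mul (hu i).smooth
  have hE : energy T (fun z => ∑ i, a i * u i z) = ∑ i, a i * (a i * μ i) * bd T (u i) (u i) := by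
    have hint : ∀ i, IntegrableOn (fun z => gradInner (fun z => ∑ i, a i * u i z) (u i) z) T := by
      intro i
      have hc : Continuous (fun z => gradInner (fun z => ∑ i, a i * u i z) (u i) z) := by
        unfold gradInner
        have c1 := hsm.continuous_fderiv (by simp)
        have c2 := (hu i).smooth.continuous_fderiv (by simp)
        exact ((c1.clm_apply continuous_const).mul (c2.clm_apply continuous_const)).add
          ((c1.clm_apply continuous_const).mul (c2.clm_apply continuous_const))
      exact (hc.continuousOn.integrableOn_compact (isCompact_tri A B C)).mono_set interior_subset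
    have h1 : energy T (fun z => ∑ i, a i * u i z)
        = ∫ z in T, ∑ i, a i * gradInner (fun z => ∑ i, a i * u i z) (u i) z := by
      unfold energy
      congr 1
      funext z
      rw [norm_sq_clm]
      have hf : fderiv ℝ (fun z => ∑ i, a i * u i z) z = ∑ i, a i • fderiv ℝ (u i) z := by
        have : HasFDerivAt (fun z => ∑ i, a i * u i z) (∑ i, a i • fderiv ℝ (u i) z) z := by
          apply HasFDerivAt.fun_sum
          intro i _
          exact (((hu i).smooth.differentiable (by simp) z).hasFDerivAt).const_mul (a i)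
        exact this.fderiv
      have h1 : ∀ e, fderiv ℝ (fun z => ∑ i, a i * u i z) z e = ∑ i, a i * fderiv ℝ (u i) z e := by
        intro e
        rw [hf]
        simp
      conv_lhs =>
        rw [show fderiv ℝ (fun z => ∑ i, a i * u i z) z 1 * fderiv ℝ (fun z => ∑ i, a i * u i z) z 1
          = fderiv ℝ (fun z => ∑ i, a i * u i z) z 1 * ∑ i, a i * fderiv ℝ (u i) z 1 from by
            rw [← h1 1]]
        rw [show fderiv ℝ (fun z => ∑ i, a i * u i z) z Complex.I
            * fderiv ℝ (fun z => ∑ i, a i * u i z) z Complex.I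
          = fderiv ℝ (fun z => ∑ i, a i * u i z) z Complex.I
            * ∑ i, a i * fderiv ℝ (u i) z Complex.I from by rw [← h1 Complex.I]]
      rw [Finset.mul_sum, Finset.mul_sum, ← Finset.sum_add_distrib]
      apply Finset.sum_congr rfl
      intro i _
      unfold gradInner
      ring
    rw [h1, integral_finsetSum _ (fun i _ => (hint i).const_mul (a i))]
    have h2 : ∀ i, ∫ z in T, a i * gradInner (fun z => ∑ i, a i * u i z) (u i) z
        = a i * (μ i * bd T (fun z => ∑ i, a i * u i z) (u i)) := by
      intro i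
      rw [integral_const_mul, green_steklov A B C hJ _ (u i) (μ i) hsm (hu i)]
    have h3 : ∀ i, bd T (fun z => ∑ i, a i * u i z) (u i) = a i * bd T (u i) (u i) := by
      intro i
      have := hexp (Pi.single i 1)
      have e1 : (fun z => ∑ j, (Pi.single i (1:ℝ) : Fin (k+1) → ℝ) j * u j z) = u i := by
        funext z
        rw [Finset.sum_eq_single i] <;> simp +contextual
      have e2 : ∑ j, a j * (Pi.single i (1:ℝ) : Fin (k+1) → ℝ) j * bd T (u j) (u j)
          = a i * bd T (u i) (u i) := by
        rw [Finset.sum_eq_single i] <;> simp +contextual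
      rw [e1, e2] at this
      exact this
    apply Finset.sum_congr rfl
    intro i _
    rw [h2, h3]
    ring
  rw [hB, hE]
  constructor
  · obtain ⟨i, hi⟩ := Function.ne_iff.mp ha
    apply Finset.sum_pos'
    · intro j _
      exact mul_nonneg (mul_self_nonneg _) (hpos j).le
    · exact ⟨i, Finset.mem_univ i, mul_pos (mul_self_pos.mpr (by simpa using hi)) (hpos i)⟩
  · rw [Finset.mul_sum]
    apply Finset.sum_le_sum
    intro i _
    have : a i * (a i * μ i) * bd T (u i) (u i) = μ i * (a i * a i * bd T (u i) (u i)) := by ring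
    rw [this]
    exact mul_le_mul_of_nonneg_right (hM i) (mul_nonneg (mul_self_nonneg _) (hpos i).le)

end Pool.Agent.Steklov
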