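import Mathlib
import Pool.Agent.Steklov.MinMax

open MeasureTheory Set
open scoped ContDiff

namespace Pool.Agent.Steklov

/-- The primitive cube root of unity. -/
noncomputable def om : ℂ := ⟨-1/2, √3/2⟩

@[simp] lemma om_re : om.re = -1/2 := rfl
@[simp] lemma om_im : om.im = √3/2 := rfl

lemma sq3 : √3 * √3 = (3:ℝ) := Real.mul_self_sqrt (by norm_num)

lemma om_sq : om ^ 2 = ⟨-1/2, -√3/2⟩ := by
  have := sq3
  apply Complex.ext
  · simp [pow_two]; nlinarith
  · simp [pow_two]; ring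

lemma om_cube : om ^ 3 = 1 := by
  have := sq3
  rw [pow_succ, om_sq]
  apply Complex.ext
  · simp; nlinarith
  · simp; ring

lemma om_sum : 1 + om + om ^ 2 = 0 := by
  rw [om_sq]
  apply Complex.ext
  · simp; norm_num
  · simp; ring

lemma conj_om : (starRingEnd ℂ) om = om ^ 2 := by
  rw [om_sq]
  apply Complex.ext <;> simp
  ring

lemma conj_om_sq : (starRingEnd ℂ) (om ^ 2) = om := by
  rw [map_pow, conj_om, ← pow_mul]
  calc om ^ (2*2) = om ^ 3 * om := by ring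
    _ = om := by rw [om_cube, one_mul]

/-- A model Steklov function on the equilateral triangle of inradius `1`, given as the real part
of an entire function. -/
structure IsModel (Φ : ℂ → ℂ) (σ : ℝ) : Prop where
  diff : Differentiable ℂ Φ
  bc0 : ∀ y : ℝ, (deriv Φ (1 + y * Complex.I)).re = σ * (Φ (1 + y * Complex.I)).re
  bc1 : ∀ y : ℝ, (om * deriv Φ (om * (1 + y * Complex.I))).re
    = σ * (Φ (om * (1 + y * Complex.I))).re
  bc2 : ∀ y : ℝ, (om ^ 2 * deriv Φ (om ^ 2 * (1 + y * Complex.I))).re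
    = σ * (Φ (om ^ 2 * (1 + y * Complex.I))).re

/-- transplantation of a model function -/
noncomputable def tr (a b : ℂ) (Φ : ℂ → ℂ) (z : ℂ) : ℝ := (Φ ((z - b) / a)).re

noncomputable def vA (a b : ℂ) : ℂ := b + a * (1 - √3 * Complex.I)
noncomputable def vB (a b : ℂ) : ℂ := b + a * (1 + √3 * Complex.I)
noncomputable def vC (a b : ℂ) : ℂ := b - 2 * a

lemma om_eq : om = -1/2 + √3/2 * Complex.I := by
  apply Complex.ext <;> simp

lemma sq3C : (√3 : ℂ) * √3 = 3 := by exact_mod_cast sq3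

lemma sideAB (a b : ℂ) (t : ℝ) : vA a b + t * (vB a b - vA a b)
    = b + a * (1 + (√3 * (2 * t - 1) : ℝ) * Complex.I) := by
  simp [vA, vB]; ring

lemma sideBC (a b : ℂ) (t : ℝ) : vB a b + t * (vC a b - vB a b)
    = b + a * (om * (1 + (√3 * (2 * t - 1) : ℝ) * Complex.I)) := by
  simp only [vB, vC, om_eq]; push_cast
  linear_combination a * (1/2) * (2 * t - 1) * Complex.I ^ 2 * (-1) * sq3C
    + a * (3/2) * (2 * t - 1) * (-1) * Complex.I_sq

lemma sideCA (a b : ℂ) (t : ℝ) : vC a b + t * (vA a b - vC a b)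
    = b + a * (om ^ 2 * (1 + (√3 * (2 * t - 1) : ℝ) * Complex.I)) := by
  have h : om ^ 2 = -1/2 - √3/2 * Complex.I := by
    rw [om_sq]; apply Complex.ext <;> simp; ring
  simp only [vA, vC, h]; push_cast
  linear_combination a * (1/2) * (2 * t - 1) * Complex.I ^ 2 * (1) * sq3C
    + a * (3/2) * (2 * t - 1) * (1) * Complex.I_sq

lemma dirAB (a b : ℂ) : vB a b - vA a b = 2 * √3 * Complex.I * a := by
  simp [vA, vB]; ring

lemma dirBC (a b : ℂ) : vC a b - vB a b = 2 * √3 * Complex.I * a * om := by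
  simp only [vB, vC, om_eq]
  linear_combination -a * Complex.I ^ 2 * sq3C - 3 * a * Complex.I_sq

lemma dirCA (a b : ℂ) : vA a b - vC a b = 2 * √3 * Complex.I * a * om ^ 2 := by
  have h : om ^ 2 = -1/2 - √3/2 * Complex.I := by
    rw [om_sq]; apply Complex.ext <;> simp; ring
  simp only [vA, vC, h]
  linear_combination a * Complex.I ^ 2 * sq3C + 3 * a * Complex.I_sq

lemma norm_om : ‖om‖ = 1 := by
  have h : ‖om‖ ^ 3 = 1 := by rw [← norm_pow, om_cube, norm_one]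
  exact (pow_eq_one_iff_of_nonneg (norm_nonneg _) (by norm_num)).mp h

lemma norm_side (a : ℂ) : ‖2 * (√3:ℂ) * Complex.I * a‖ = 2 * √3 * ‖a‖ := by
  rw [norm_mul, norm_mul, norm_mul, Complex.norm_I, Complex.norm_real]
  rw [Real.norm_of_nonneg (Real.sqrt_nonneg 3)]
  simp

lemma cr_v (a b : ℂ) : cr (vB a b - vA a b) (vC a b - vA a b) = 6 * √3 * ‖a‖ ^ 2 := by
  have h3 := sq3
  rw [Complex.sq_norm, Complex.normSq_apply]
  simp [cr, vA, vB, vC]
  ring

lemma hasFDerivAt_tr (a b : ℂ) (Φ : ℂ → ℂ) (hΦ : Differentiable ℂ Φ) (z : ℂ) :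
    HasFDerivAt (tr a b Φ) (Complex.reCLM.comp
      ((ContinuousLinearMap.toSpanSingleton ℂ (deriv Φ ((z - b) / a) / a)).restrictScalars ℝ)) z := by
  have h1 : HasDerivAt (fun z => Φ ((z - b) / a)) (deriv Φ ((z - b) / a) / a) z := by
    have h2 : HasDerivAt (fun z : ℂ => (z - b) / a) (1 / a) z :=
      ((hasDerivAt_id z).sub_const b).div_const a
    have h4 := HasDerivAt.comp z (hΦ ((z - b) / a)).hasDerivAt h2
    rw [mul_one_div] at h4
    exact h4
  have h3 := h1.hasFDerivAt.restrictScalars ℝ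
  exact Complex.reCLM.hasFDerivAt.comp z h3

lemma fderiv_tr (a b : ℂ) (Φ : ℂ → ℂ) (hΦ : Differentiable ℂ Φ) (z e : ℂ) :
    fderiv ℝ (tr a b Φ) z e = (e * (deriv Φ ((z - b) / a) / a)).re := by
  rw [(hasFDerivAt_tr a b Φ hΦ z).fderiv]
  simp

lemma contDiff_tr (a b : ℂ) (Φ : ℂ → ℂ) (hΦ : Differentiable ℂ Φ) : ContDiff ℝ ∞ (tr a b Φ) := by
  have h1 : ContDiff ℂ ∞ Φ := hΦ.contDiff
  have h2 : ContDiff ℂ ∞ (fun z : ℂ => (z - b) / a) := by fun_prop
  have h3 : ContDiff ℝ ∞ (fun z : ℂ => Φ ((z - b) / a)) := (h1.comp h2).restrict_scalars ℝ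
  exact Complex.reCLM.contDiff.comp h3

lemma isSteklov_tr (a b : ℂ) (ha : a ≠ 0) (Φ : ℂ → ℂ) (σ : ℝ) (h : IsModel Φ σ) :
    IsSteklov (vA a b) (vB a b) (vC a b) (tr a b Φ) (σ / ‖a‖) where
  smooth := contDiff_tr a b Φ h.diff
  harm := by
    intro z
    have hd : Differentiable ℂ (deriv Φ) :=
      fun z => (h.diff.contDiff (n := 2)).differentiable_deriv_two z
    have e1 : (fun z => fderiv ℝ (tr a b Φ) z 1) = tr a b (fun ξ => deriv Φ ξ / a) := by
      funext z; rw [fderiv_tr a b Φ h.diff]; simp [tr]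
    have e2 : (fun z => fderiv ℝ (tr a b Φ) z Complex.I)
        = tr a b (fun ξ => Complex.I * (deriv Φ ξ / a)) := by
      funext z; rw [fderiv_tr a b Φ h.diff]; simp [tr]
    rw [e1, e2, fderiv_tr _ _ _ (hd.div_const a), fderiv_tr _ _ _ ((hd.div_const a).const_mul _)]
    have e3 : deriv (fun ξ => Complex.I * (deriv Φ ξ / a)) ((z - b) / a)
        = Complex.I * deriv (fun ξ => deriv Φ ξ / a) ((z - b) / a) := by
      rw [deriv_const_mul _ ((hd.div_const a) _)]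
    rw [e3]
    simp only [Complex.mul_re, Complex.mul_im, Complex.div_re, Complex.div_im, Complex.I_re,
      Complex.I_im, Complex.one_re, Complex.one_im]
    ring
  bc1 := by
    intro t
    rw [sideAB, dirAB, norm_side, fderiv_tr a b Φ h.diff, tr]
    have e1 : (b + a * (1 + (√3 * (2 * t - 1) : ℝ) * Complex.I) - b) / a
        = 1 + (√3 * (2 * t - 1) : ℝ) * Complex.I := by field_simp; ring
    rw [e1]
    have := h.bc0 (√3 * (2 * t - 1))
    have hn : ‖a‖ ≠ 0 := norm_ne_zero_iff.mpr ha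
    have e2 : -Complex.I * (2 * (√3:ℂ) * Complex.I * a)
        * (deriv Φ (1 + (√3 * (2 * t - 1) : ℝ) * Complex.I) / a)
        = ((2 * √3 : ℝ) : ℂ) * deriv Φ (1 + (√3 * (2 * t - 1) : ℝ) * Complex.I) := by
      push_cast
      field_simp
      rw [Complex.I_sq]; ring
    rw [e2, Complex.re_ofReal_mul, this]
    field_simp
  bc2 := by
    intro t
    rw [sideBC, dirBC, norm_mul, norm_om, mul_one, norm_side, fderiv_tr a b Φ h.diff, tr]
    have e1 : (b + a * (om * (1 + (√3 * (2 * t - 1) : ℝ) * Complex.I)) - b) / a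
        = om * (1 + (√3 * (2 * t - 1) : ℝ) * Complex.I) := by field_simp; ring
    rw [e1]
    have := h.bc1 (√3 * (2 * t - 1))
    have hn : ‖a‖ ≠ 0 := norm_ne_zero_iff.mpr ha
    have e2 : -Complex.I * (2 * (√3:ℂ) * Complex.I * a * om)
        * (deriv Φ (om * (1 + (√3 * (2 * t - 1) : ℝ) * Complex.I)) / a)
        = ((2 * √3 : ℝ) : ℂ) * (om * deriv Φ (om * (1 + (√3 * (2 * t - 1) : ℝ) * Complex.I))) := by
      push_cast
      field_simp
      rw [Complex.I_sq]; ring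
    rw [e2, Complex.re_ofReal_mul, this]
    field_simp
  bc3 := by
    intro t
    rw [sideCA, dirCA, norm_mul, norm_pow, norm_om, one_pow, mul_one, norm_side,
      fderiv_tr a b Φ h.diff, tr]
    have e1 : (b + a * (om ^ 2 * (1 + (√3 * (2 * t - 1) : ℝ) * Complex.I)) - b) / a
        = om ^ 2 * (1 + (√3 * (2 * t - 1) : ℝ) * Complex.I) := by field_simp; ring
    rw [e1]
    have := h.bc2 (√3 * (2 * t - 1))
    have hn : ‖a‖ ≠ 0 := norm_ne_zero_iff.mpr ha
    have e2 : -Complex.I * (2 * (√3:ℂ) * Complex.I * a * om ^ 2)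
        * (deriv Φ (om ^ 2 * (1 + (√3 * (2 * t - 1) : ℝ) * Complex.I)) / a)
        = ((2 * √3 : ℝ) : ℂ)
          * (om ^ 2 * deriv Φ (om ^ 2 * (1 + (√3 * (2 * t - 1) : ℝ) * Complex.I))) := by
      push_cast
      field_simp
      rw [Complex.I_sq]; ring
    rw [e2, Complex.re_ofReal_mul, this]
    field_simp

/-- Model boundary form. -/
noncomputable def mb (Φ Ψ : ℂ → ℂ) : ℝ :=
  (∫ t in (0:ℝ)..1, (Φ (1 + (√3 * (2 * t - 1) : ℝ) * Complex.I)).re
      * (Ψ (1 + (√3 * (2 * t - 1) : ℝ) * Complex.I)).re)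
  + (∫ t in (0:ℝ)..1, (Φ (om * (1 + (√3 * (2 * t - 1) : ℝ) * Complex.I))).re
      * (Ψ (om * (1 + (√3 * (2 * t - 1) : ℝ) * Complex.I))).re)
  + (∫ t in (0:ℝ)..1, (Φ (om ^ 2 * (1 + (√3 * (2 * t - 1) : ℝ) * Complex.I))).re
      * (Ψ (om ^ 2 * (1 + (√3 * (2 * t - 1) : ℝ) * Complex.I))).re)

lemma cr_v_pos (a b : ℂ) (ha : a ≠ 0) : 0 < cr (vB a b - vA a b) (vC a b - vA a b) := by
  rw [cr_v]
  have : 0 < ‖a‖ := norm_pos_iff.mpr ha
  positivity

lemma bd_tr (a b : ℂ) (ha : a ≠ 0) (Φ Ψ : ℂ → ℂ) (hΦ : Differentiable ℂ Φ)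
    (hΨ : Differentiable ℂ Ψ) :
    bd (interior (convexHull ℝ {vA a b, vB a b, vC a b})) (tr a b Φ) (tr a b Ψ)
      = 2 * √3 * ‖a‖ * mb Φ Ψ := by
  unfold bd
  rw [integral_frontier_tri _ _ _ (cr_v_pos a b ha) (fun z => tr a b Φ z * tr a b Ψ z)
    ((contDiff_tr a b Φ hΦ).continuous.mul (contDiff_tr a b Ψ hΨ).continuous)]
  rw [dirAB, dirBC, dirCA, norm_mul _ om, norm_mul _ (om ^ 2), norm_pow, norm_om, norm_side,
    one_pow, mul_one]
  have h0 : ∀ t : ℝ, (vA a b + t * (2 * √3 * Complex.I * a) - b) / a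
      = 1 + (√3 * (2 * t - 1) : ℝ) * Complex.I := by
    intro t
    rw [← dirAB a b, sideAB]; field_simp; ring
  have h1 : ∀ t : ℝ, (vB a b + t * (2 * √3 * Complex.I * a * om) - b) / a
      = om * (1 + (√3 * (2 * t - 1) : ℝ) * Complex.I) := by
    intro t
    rw [← dirBC a b, sideBC]; field_simp; ring
  have h2 : ∀ t : ℝ, (vC a b + t * (2 * √3 * Complex.I * a * om ^ 2) - b) / a
      = om ^ 2 * (1 + (√3 * (2 * t - 1) : ℝ) * Complex.I) := by
    intro t
    rw [← dirCA a b, sideCA]; field_simp; ring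
  simp only [tr, h0, h1, h2]
  unfold mb
  ring

end Pool.Agent.Steklov
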