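import Mathlib
import Pool.Agent.Steklov.Model

open MeasureTheory Set
open scoped ContDiff ComplexConjugate

namespace Pool.Agent.Steklov

open Complex (exp I)

variable (κ σ : ℝ) (ζ : ℂ)

/-- first holomorphic part -/
noncomputable def mF (ξ : ℂ) : ℂ := ((κ + σ) * Real.exp (-κ) : ℝ) *
  (exp (κ * ξ) + ζ ^ 2 * exp (κ * om * ξ) + ζ * exp (κ * om ^ 2 * ξ))

/-- second holomorphic part -/
noncomputable def mH (ξ : ℂ) : ℂ := ((κ - σ) * Real.exp κ : ℝ) *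
  (exp (-κ * ξ) + ζ * exp (-κ * om * ξ) + ζ ^ 2 * exp (-κ * om ^ 2 * ξ))

noncomputable def mF' (ξ : ℂ) : ℂ := ((κ + σ) * Real.exp (-κ) : ℝ) *
  (κ * exp (κ * ξ) + ζ ^ 2 * (κ * om) * exp (κ * om * ξ) + ζ * (κ * om ^ 2) * exp (κ * om ^ 2 * ξ))

noncomputable def mH' (ξ : ℂ) : ℂ := ((κ - σ) * Real.exp κ : ℝ) *
  (-κ * exp (-κ * ξ) + ζ * (-κ * om) * exp (-κ * om * ξ)
    + ζ ^ 2 * (-κ * om ^ 2) * exp (-κ * om ^ 2 * ξ))

lemma hasDerivAt_mF (ξ : ℂ) : HasDerivAt (mF κ σ ζ) (mF' κ σ ζ ξ) ξ := by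
  have h : ∀ c : ℂ, HasDerivAt (fun ξ => exp (c * ξ)) (c * exp (c * ξ)) ξ := by
    intro c
    have := ((hasDerivAt_id ξ).const_mul c).cexp
    simpa [mul_comm] using this
  have h1 := ((h κ).add ((h (κ * om)).const_mul (ζ ^ 2))).add ((h (κ * om ^ 2)).const_mul ζ)
  have h2 := h1.const_mul (((κ + σ) * Real.exp (-κ) : ℝ) : ℂ)
  refine h2.congr_deriv ?_
  unfold mF'; ring

lemma hasDerivAt_mH (ξ : ℂ) : HasDerivAt (mH κ σ ζ) (mH' κ σ ζ ξ) ξ := by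
  have h : ∀ c : ℂ, HasDerivAt (fun ξ => exp (c * ξ)) (c * exp (c * ξ)) ξ := by
    intro c
    have := ((hasDerivAt_id ξ).const_mul c).cexp
    simpa [mul_comm] using this
  have h1 := ((h (-κ)).add ((h (-κ * om)).const_mul ζ)).add ((h (-κ * om ^ 2)).const_mul (ζ ^ 2))
  have h2 := h1.const_mul (((κ - σ) * Real.exp κ : ℝ) : ℂ)
  refine h2.congr_deriv ?_
  unfold mH'; ring

/-- The complex mode. -/
noncomputable def mU (ξ : ℂ) : ℂ := mF κ σ ζ ξ + conj (mH κ σ ζ ξ)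

/-- Its normal derivative (in direction `1`). -/
noncomputable def mU' (ξ : ℂ) : ℂ := mF' κ σ ζ ξ + conj (mH' κ σ ζ ξ)

noncomputable def Phi0 (ξ : ℂ) : ℂ := mF κ σ ζ ξ + mH κ σ ζ ξ
noncomputable def Phi1 (ξ : ℂ) : ℂ := -I * (mF κ σ ζ ξ - mH κ σ ζ ξ)

lemma hasDerivAt_Phi0 (ξ : ℂ) : HasDerivAt (Phi0 κ σ ζ) (mF' κ σ ζ ξ + mH' κ σ ζ ξ) ξ :=
  (hasDerivAt_mF κ σ ζ ξ).add (hasDerivAt_mH κ σ ζ ξ)

lemma hasDerivAt_Phi1 (ξ : ℂ) : HasDerivAt (Phi1 κ σ ζ) (-I * (mF' κ σ ζ ξ - mH' κ σ ζ ξ)) ξ :=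
  ((hasDerivAt_mF κ σ ζ ξ).sub (hasDerivAt_mH κ σ ζ ξ)).const_mul (-I)

lemma re_Phi0 (ξ : ℂ) : (Phi0 κ σ ζ ξ).re = (mU κ σ ζ ξ).re := by
  simp [Phi0, mU]

lemma re_Phi1 (ξ : ℂ) : (Phi1 κ σ ζ ξ).re = (mU κ σ ζ ξ).im := by
  simp [Phi1, mU, sub_eq_add_neg]

section
variable {κ σ ζ}

lemma om_four : om ^ 4 = om := by
  calc om ^ 4 = om ^ 3 * om := by ring
    _ = om := by rw [om_cube, one_mul]

lemma mF_om (hζ : ζ ^ 3 = 1) (ξ : ℂ) : mF κ σ ζ (om * ξ) = ζ * mF κ σ ζ ξ := by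
  unfold mF
  have e1 : (κ:ℂ) * om * (om * ξ) = κ * om ^ 2 * ξ := by ring
  have e2 : (κ:ℂ) * om ^ 2 * (om * ξ) = κ * ξ := by
    calc (κ:ℂ) * om ^ 2 * (om * ξ) = κ * om ^ 3 * ξ := by ring
      _ = κ * ξ := by rw [om_cube]; ring
  have e3 : (κ:ℂ) * (om * ξ) = κ * om * ξ := by ring
  rw [e1, e2, e3]
  linear_combination (-((((κ + σ) * Real.exp (-κ) : ℝ) : ℂ)) * exp (κ * om * ξ)) * hζ

lemma mH_om (hζ : ζ ^ 3 = 1) (ξ : ℂ) : mH κ σ ζ (om * ξ) = ζ ^ 2 * mH κ σ ζ ξ := by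
  unfold mH
  have e1 : -(κ:ℂ) * om * (om * ξ) = -κ * om ^ 2 * ξ := by ring
  have e2 : -(κ:ℂ) * om ^ 2 * (om * ξ) = -κ * ξ := by
    calc -(κ:ℂ) * om ^ 2 * (om * ξ) = -κ * om ^ 3 * ξ := by ring
      _ = -κ * ξ := by rw [om_cube]; ring
  have e3 : -(κ:ℂ) * (om * ξ) = -κ * om * ξ := by ring
  rw [e1, e2, e3]
  linear_combination (-((((κ - σ) * Real.exp κ : ℝ) : ℂ))
    * (exp (-κ * om * ξ) + ζ * exp (-κ * om ^ 2 * ξ))) * hζ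

lemma mF'_om (hζ : ζ ^ 3 = 1) (ξ : ℂ) : om * mF' κ σ ζ (om * ξ) = ζ * mF' κ σ ζ ξ := by
  unfold mF'
  have e1 : (κ:ℂ) * om * (om * ξ) = κ * om ^ 2 * ξ := by ring
  have e2 : (κ:ℂ) * om ^ 2 * (om * ξ) = κ * ξ := by
    calc (κ:ℂ) * om ^ 2 * (om * ξ) = κ * om ^ 3 * ξ := by ring
      _ = κ * ξ := by rw [om_cube]; ring
  have e3 : (κ:ℂ) * (om * ξ) = κ * om * ξ := by ring
  rw [e1, e2, e3]
  linear_combination (-((((κ + σ) * Real.exp (-κ) : ℝ) : ℂ)) * κ * om * exp (κ * om * ξ)) * hζ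
    + ((((κ + σ) * Real.exp (-κ) : ℝ) : ℂ)) * κ * ζ * exp (κ * ξ) * om_cube

lemma mH'_om (hζ : ζ ^ 3 = 1) (ξ : ℂ) : om * mH' κ σ ζ (om * ξ) = ζ ^ 2 * mH' κ σ ζ ξ := by
  unfold mH'
  have e1 : -(κ:ℂ) * om * (om * ξ) = -κ * om ^ 2 * ξ := by ring
  have e2 : -(κ:ℂ) * om ^ 2 * (om * ξ) = -κ * ξ := by
    calc -(κ:ℂ) * om ^ 2 * (om * ξ) = -κ * om ^ 3 * ξ := by ring
      _ = -κ * ξ := by rw [om_cube]; ring
  have e3 : -(κ:ℂ) * (om * ξ) = -κ * om * ξ := by ring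
  rw [e1, e2, e3]
  linear_combination (((((κ - σ) * Real.exp κ : ℝ) : ℂ)) * κ *
    (om * exp (-κ * om * ξ) + ζ * om ^ 2 * exp (-κ * om ^ 2 * ξ))) * hζ
    - ((((κ - σ) * Real.exp κ : ℝ) : ℂ)) * κ * ζ ^ 2 * exp (-κ * ξ) * om_cube

lemma conj_zeta (hζ : ζ ^ 3 = 1) : conj ζ = ζ ^ 2 := by
  have hn : ‖ζ‖ = 1 := by
    have h : ‖ζ‖ ^ 3 = 1 := by rw [← norm_pow, hζ, norm_one]
    exact (pow_eq_one_iff_of_nonneg (norm_nonneg _) (by norm_num)).mp h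
  have h1 : ζ * conj ζ = 1 := by
    rw [Complex.mul_conj, Complex.normSq_eq_norm_sq, hn]; simp
  calc conj ζ = ζ ^ 3 * conj ζ := by rw [hζ, one_mul]
    _ = ζ ^ 2 * (ζ * conj ζ) := by ring
    _ = ζ ^ 2 := by rw [h1, mul_one]

lemma conj_zeta_sq (hζ : ζ ^ 3 = 1) : conj (ζ ^ 2) = ζ := by
  rw [map_pow, conj_zeta hζ]
  calc (ζ ^ 2) ^ 2 = ζ ^ 3 * ζ := by ring
    _ = ζ := by rw [hζ, one_mul]

lemma mU_om (hζ : ζ ^ 3 = 1) (ξ : ℂ) : mU κ σ ζ (om * ξ) = ζ * mU κ σ ζ ξ := by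
  unfold mU
  rw [mF_om hζ, mH_om hζ, map_mul, conj_zeta_sq hζ]; ring

lemma mU'_om (hζ : ζ ^ 3 = 1) (ξ : ℂ) :
    om * mF' κ σ ζ (om * ξ) + conj (om * mH' κ σ ζ (om * ξ)) = ζ * mU' κ σ ζ ξ := by
  unfold mU'
  rw [mF'_om hζ, mH'_om hζ, map_mul, conj_zeta_sq hζ]; ring

/-- coefficients of the mode on the side `Re ξ = 1` -/
noncomputable def mc1 (κ σ : ℝ) (ζ : ℂ) : ℂ := ((κ + σ) * Real.exp (-κ) : ℝ) * ζ ^ 2 * exp (κ * om)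
  + ((κ - σ) * Real.exp κ : ℝ) * ζ * exp (-κ * om)
noncomputable def mc2 (κ σ : ℝ) (ζ : ℂ) : ℂ := ((κ + σ) * Real.exp (-κ) : ℝ) * ζ * exp (κ * om ^ 2)
  + ((κ - σ) * Real.exp κ : ℝ) * ζ ^ 2 * exp (-κ * om ^ 2)

lemma conj_exp_aux (c : ℂ) (y : ℝ) :
    conj (exp (-κ * c * (1 + y * I))) = exp (-κ * conj c) * exp (κ * conj c * I * y) := by
  rw [← Complex.exp_conj, ← Complex.exp_add]
  congr 1
  simp
  ring

lemma exp_aux (c : ℂ) (y : ℝ) :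
    exp (κ * c * (1 + y * I)) = exp (κ * c) * exp (κ * c * I * y) := by
  rw [← Complex.exp_add]; congr 1; ring

lemma mU_side (hζ : ζ ^ 3 = 1) (y : ℝ) : mU κ σ ζ (1 + y * I)
    = 2 * κ * exp (κ * 1 * I * y) + mc1 κ σ ζ * exp (κ * om * I * y)
      + mc2 κ σ ζ * exp (κ * om ^ 2 * I * y) := by
  unfold mU mF mH mc1 mc2
  simp only [map_mul, map_add, Complex.conj_ofReal, conj_zeta hζ, conj_zeta_sq hζ]
  have a0 : exp ((κ:ℂ) * (1 + y * I)) = exp (κ:ℂ) * exp (κ * 1 * I * y) := by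
    have := exp_aux (κ := κ) 1 y; simpa using this
  have b0 : conj (exp (-(κ:ℂ) * (1 + y * I))) = exp (-(κ:ℂ)) * exp (κ * 1 * I * y) := by
    have := conj_exp_aux (κ := κ) 1 y; simpa using this
  have b1 := conj_exp_aux (κ := κ) om y
  have b2 := conj_exp_aux (κ := κ) (om ^ 2) y
  rw [conj_om] at b1
  rw [conj_om_sq] at b2
  rw [a0, b0, b1, b2, exp_aux om y, exp_aux (om ^ 2) y]
  have e1 : exp (κ:ℂ) * exp (-(κ:ℂ)) = 1 := by rw [← Complex.exp_add]; simp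
  push_cast
  linear_combination (2 * κ * exp (κ * 1 * I * y)) * e1

lemma mU'_side (hζ : ζ ^ 3 = 1) (y : ℝ)
    (hK : ((κ + σ) * Real.exp (-κ) : ℝ) * ζ * (κ * om - σ) * exp (κ * om)
      = ((κ - σ) * Real.exp κ : ℝ) * (κ * om + σ) * exp (-κ * om)) :
    mU' κ σ ζ (1 + y * I) = σ * mU κ σ ζ (1 + y * I) := by
  have hK' := congrArg conj hK
  simp only [map_mul, map_add, map_sub, Complex.conj_ofReal, conj_zeta hζ, conj_om,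
    ← Complex.exp_conj, map_neg] at hK'
  unfold mU' mU mF mH mF' mH'
  simp only [map_mul, map_add, map_neg, Complex.conj_ofReal, conj_zeta hζ, conj_zeta_sq hζ,
    conj_om, conj_om_sq]
  have a0 : exp ((κ:ℂ) * (1 + y * I)) = exp (κ:ℂ) * exp (κ * 1 * I * y) := by
    have := exp_aux (κ := κ) 1 y; simpa using this
  have b0 : conj (exp (-(κ:ℂ) * (1 + y * I))) = exp (-(κ:ℂ)) * exp (κ * 1 * I * y) := by
    have := conj_exp_aux (κ := κ) 1 y; simpa using this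
  have b1 := conj_exp_aux (κ := κ) om y
  have b2 := conj_exp_aux (κ := κ) (om ^ 2) y
  rw [conj_om] at b1
  rw [conj_om_sq] at b2
  rw [a0, b0, b1, b2, exp_aux om y, exp_aux (om ^ 2) y]
  have e1 : exp (κ:ℂ) * exp (-(κ:ℂ)) = 1 := by rw [← Complex.exp_add]; simp
  have e2 : exp (-(κ:ℂ)) * exp (κ:ℂ) = 1 := by rw [← Complex.exp_add]; simp
  push_cast
  push_cast at hK hK'
  linear_combination ζ * exp (κ * om * I * y) * hK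
    + ζ ^ 2 * exp (κ * om ^ 2 * I * y) * hK'
    + (- (κ + σ) * exp (-κ) * ζ * (κ * om ^ 2 - σ) * exp (κ * om ^ 2)
      * exp (κ * om ^ 2 * I * y)) * hζ

end

end Pool.Agent.Steklov
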