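import Mathlib
import Pool.Agent.Steklov.Modes

open MeasureTheory Set
open scoped ContDiff ComplexConjugate

namespace Pool.Agent.Steklov

open Complex (exp I)

variable {κ σ : ℝ} {ζ : ℂ}

lemma isModel_Phi0 (hζ : ζ ^ 3 = 1)
    (hK : ((κ + σ) * Real.exp (-κ) : ℝ) * ζ * (κ * om - σ) * exp (κ * om)
      = ((κ - σ) * Real.exp κ : ℝ) * (κ * om + σ) * exp (-κ * om)) :
    IsModel (Phi0 κ σ ζ) σ where
  diff := fun ξ => (hasDerivAt_Phi0 κ σ ζ ξ).differentiableAt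
  bc0 := by
    intro y
    rw [(hasDerivAt_Phi0 κ σ ζ _).deriv, re_Phi0]
    have h := mU'_side hζ y hK
    have h1 := congrArg Complex.re h
    rw [Complex.re_ofReal_mul] at h1
    rw [← h1]
    simp [mU']
  bc1 := by
    intro y
    rw [(hasDerivAt_Phi0 κ σ ζ _).deriv, re_Phi0, mU_om hζ]
    have h := mU'_side hζ y hK
    have h2 := mU'_om (κ := κ) (σ := σ) hζ (1 + y * I)
    rw [h] at h2
    have h3 := congrArg Complex.re h2
    have e : ζ * (σ * mU κ σ ζ (1 + y * I)) = σ * (ζ * mU κ σ ζ (1 + y * I)) := by ring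
    rw [e, Complex.re_ofReal_mul] at h3
    rw [← h3, mul_add, Complex.add_re, Complex.add_re, Complex.conj_re]
  bc2 := by
    intro y
    have e0 : om ^ 2 * (1 + y * I) = om * (om * (1 + y * I)) := by ring
    rw [(hasDerivAt_Phi0 κ σ ζ _).deriv, re_Phi0, e0, mU_om hζ, mU_om hζ]
    have h := mU'_side hζ y hK
    have a1 : om ^ 2 * mF' κ σ ζ (om * (om * (1 + y * I))) = ζ ^ 2 * mF' κ σ ζ (1 + y * I) := by
      calc om ^ 2 * mF' κ σ ζ (om * (om * (1 + y * I)))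
          = om * (om * mF' κ σ ζ (om * (om * (1 + y * I)))) := by ring
        _ = ζ * (om * mF' κ σ ζ (om * (1 + y * I))) := by rw [mF'_om hζ]; ring
        _ = ζ ^ 2 * mF' κ σ ζ (1 + y * I) := by rw [mF'_om hζ]; ring
    have a2 : om ^ 2 * mH' κ σ ζ (om * (om * (1 + y * I))) = ζ * mH' κ σ ζ (1 + y * I) := by
      calc om ^ 2 * mH' κ σ ζ (om * (om * (1 + y * I)))
          = om * (om * mH' κ σ ζ (om * (om * (1 + y * I)))) := by ring
        _ = ζ ^ 2 * (om * mH' κ σ ζ (om * (1 + y * I))) := by rw [mH'_om hζ]; ring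
        _ = ζ ^ 3 * ζ * mH' κ σ ζ (1 + y * I) := by rw [mH'_om hζ]; ring
        _ = ζ * mH' κ σ ζ (1 + y * I) := by rw [hζ, one_mul]
    have a3 : (ζ * mH' κ σ ζ (1 + y * I)).re = (ζ ^ 2 * conj (mH' κ σ ζ (1 + y * I))).re := by
      rw [← Complex.conj_re, map_mul, conj_zeta hζ]
    rw [mul_add, a1, a2, Complex.add_re, a3, ← Complex.add_re, ← mul_add]
    have : mF' κ σ ζ (1 + y * I) + conj (mH' κ σ ζ (1 + y * I)) = mU' κ σ ζ (1 + y * I) := rfl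
    rw [this, h]
    have e : ζ ^ 2 * (σ * mU κ σ ζ (1 + y * I)) = σ * (ζ * (ζ * mU κ σ ζ (1 + y * I))) := by ring
    rw [e, Complex.re_ofReal_mul]

lemma neg_I_mul_re (z : ℂ) : (-I * z).re = z.im := by simp

lemma isModel_Phi1 (hζ : ζ ^ 3 = 1)
    (hK : ((κ + σ) * Real.exp (-κ) : ℝ) * ζ * (κ * om - σ) * exp (κ * om)
      = ((κ - σ) * Real.exp κ : ℝ) * (κ * om + σ) * exp (-κ * om)) :
    IsModel (Phi1 κ σ ζ) σ where
  diff := fun ξ => (hasDerivAt_Phi1 κ σ ζ ξ).differentiableAt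
  bc0 := by
    intro y
    rw [(hasDerivAt_Phi1 κ σ ζ _).deriv, re_Phi1]
    have h := mU'_side hζ y hK
    have h1 := congrArg Complex.im h
    rw [Complex.im_ofReal_mul] at h1
    rw [← h1, neg_I_mul_re]
    simp [mU', sub_eq_add_neg]
  bc1 := by
    intro y
    rw [(hasDerivAt_Phi1 κ σ ζ _).deriv, re_Phi1, mU_om hζ]
    have h := mU'_side hζ y hK
    have h2 := mU'_om (κ := κ) (σ := σ) hζ (1 + y * I)
    rw [h] at h2
    have h3 := congrArg Complex.im h2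
    have e : ζ * (σ * mU κ σ ζ (1 + y * I)) = σ * (ζ * mU κ σ ζ (1 + y * I)) := by ring
    rw [e, Complex.im_ofReal_mul] at h3
    rw [← h3]
    have e2 : om * (-I * (mF' κ σ ζ (om * (1 + y * I)) - mH' κ σ ζ (om * (1 + y * I))))
        = -I * (om * mF' κ σ ζ (om * (1 + y * I)) - om * mH' κ σ ζ (om * (1 + y * I))) := by ring
    rw [e2, neg_I_mul_re, Complex.sub_im, Complex.add_im, Complex.conj_im, sub_eq_add_neg]
  bc2 := by
    intro y
    have e0 : om ^ 2 * (1 + y * I) = om * (om * (1 + y * I)) := by ring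
    rw [(hasDerivAt_Phi1 κ σ ζ _).deriv, re_Phi1, e0, mU_om hζ, mU_om hζ]
    have h := mU'_side hζ y hK
    have a1 : om ^ 2 * mF' κ σ ζ (om * (om * (1 + y * I))) = ζ ^ 2 * mF' κ σ ζ (1 + y * I) := by
      calc om ^ 2 * mF' κ σ ζ (om * (om * (1 + y * I)))
          = om * (om * mF' κ σ ζ (om * (om * (1 + y * I)))) := by ring
        _ = ζ * (om * mF' κ σ ζ (om * (1 + y * I))) := by rw [mF'_om hζ]; ring
        _ = ζ ^ 2 * mF' κ σ ζ (1 + y * I) := by rw [mF'_om hζ]; ring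
    have a2 : om ^ 2 * mH' κ σ ζ (om * (om * (1 + y * I))) = ζ * mH' κ σ ζ (1 + y * I) := by
      calc om ^ 2 * mH' κ σ ζ (om * (om * (1 + y * I)))
          = om * (om * mH' κ σ ζ (om * (om * (1 + y * I)))) := by ring
        _ = ζ ^ 2 * (om * mH' κ σ ζ (om * (1 + y * I))) := by rw [mH'_om hζ]; ring
        _ = ζ ^ 3 * ζ * mH' κ σ ζ (1 + y * I) := by rw [mH'_om hζ]; ring
        _ = ζ * mH' κ σ ζ (1 + y * I) := by rw [hζ, one_mul]
    have a3 : -(ζ * mH' κ σ ζ (1 + y * I)).im = (ζ ^ 2 * conj (mH' κ σ ζ (1 + y * I))).im := by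
      rw [← Complex.conj_im, map_mul, conj_zeta hζ]
    have e2 : om ^ 2 * (-I * (mF' κ σ ζ (om * (om * (1 + y * I)))
        - mH' κ σ ζ (om * (om * (1 + y * I)))))
        = -I * (om ^ 2 * mF' κ σ ζ (om * (om * (1 + y * I)))
          - om ^ 2 * mH' κ σ ζ (om * (om * (1 + y * I)))) := by ring
    rw [e2, neg_I_mul_re, a1, a2, Complex.sub_im, sub_eq_add_neg, a3, ← Complex.add_im, ← mul_add]
    have : mF' κ σ ζ (1 + y * I) + conj (mH' κ σ ζ (1 + y * I)) = mU' κ σ ζ (1 + y * I) := rfl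
    rw [this, h]
    have e : ζ ^ 2 * (σ * mU κ σ ζ (1 + y * I)) = σ * (ζ * (ζ * mU κ σ ζ (1 + y * I))) := by ring
    rw [e, Complex.im_ofReal_mul]

/-- combination of three exponentials -/
noncomputable def tri3 (κ : ℝ) (a₀ a₁ a₂ : ℂ) (y : ℝ) : ℂ :=
  a₀ * exp (κ * 1 * I * y) + a₁ * exp (κ * om * I * y) + a₂ * exp (κ * om ^ 2 * I * y)

lemma hasDerivAt_tri3 (κ : ℝ) (a₀ a₁ a₂ : ℂ) (y : ℝ) :
    HasDerivAt (tri3 κ a₀ a₁ a₂)
      (tri3 κ (κ * I * a₀) (κ * I * om * a₁) (κ * I * om ^ 2 * a₂) y) y := by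
  have h : ∀ c : ℂ, HasDerivAt (fun y : ℝ => exp (c * y)) (c * exp (c * y)) y := by
    intro c
    have h1 : HasDerivAt (fun y : ℝ => c * (y : ℂ)) c y := by
      have := (Complex.ofRealCLM.hasDerivAt (x := y)).const_mul c
      simpa using this
    have := h1.cexp
    simpa [mul_comm] using this
  have h1 := (((h (κ * 1 * I)).const_mul a₀).add ((h (κ * om * I)).const_mul a₁)).add
    ((h (κ * om ^ 2 * I)).const_mul a₂)
  refine h1.congr_deriv ?_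
  unfold tri3; ring

lemma re_deriv_zero {g g' : ℝ → ℂ} (hg : ∀ y, HasDerivAt g (g' y) y) {r : ℝ}
    (h : ∀ y ∈ Ioo (-r) r, (g y).re = 0) : ∀ y ∈ Ioo (-r) r, (g' y).re = 0 := by
  intro y hy
  have h1 : HasDerivAt (fun y => (g y).re) (g' y).re y :=
    Complex.reCLM.hasFDerivAt.comp_hasDerivAt y (hg y)
  have h2 : HasDerivAt (fun _ : ℝ => (0:ℝ)) (g' y).re y := by
    refine h1.congr_of_eventuallyEq ?_
    filter_upwards [isOpen_Ioo.mem_nhds hy] with z hz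
    exact (h z hz).symm
  exact h2.unique (hasDerivAt_const y 0)

lemma im_deriv_zero {g g' : ℝ → ℂ} (hg : ∀ y, HasDerivAt g (g' y) y) {r : ℝ}
    (h : ∀ y ∈ Ioo (-r) r, (g y).im = 0) : ∀ y ∈ Ioo (-r) r, (g' y).im = 0 := by
  intro y hy
  have h1 : HasDerivAt (fun y => (g y).im) (g' y).im y :=
    Complex.imCLM.hasFDerivAt.comp_hasDerivAt y (hg y)
  have h2 : HasDerivAt (fun _ : ℝ => (0:ℝ)) (g' y).im y := by
    refine h1.congr_of_eventuallyEq ?_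
    filter_upwards [isOpen_Ioo.mem_nhds hy] with z hz
    exact (h z hz).symm
  exact h2.unique (hasDerivAt_const y 0)

lemma tri3_third (κ : ℝ) (a₀ a₁ a₂ : ℂ) (y : ℝ) :
    tri3 κ (κ * I * (κ * I * (κ * I * a₀))) (κ * I * om * (κ * I * om * (κ * I * om * a₁)))
      (κ * I * om ^ 2 * (κ * I * om ^ 2 * (κ * I * om ^ 2 * a₂))) y
      = -((κ ^ 3 : ℝ) : ℂ) * I * tri3 κ a₀ a₁ a₂ y := by
  unfold tri3
  push_cast
  have hI : I ^ 2 = -1 := Complex.I_sq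
  linear_combination (κ ^ 3 * I * a₀ * exp (κ * 1 * I * y)
    + κ ^ 3 * I * om ^ 3 * a₁ * exp (κ * om * I * y)
    + κ ^ 3 * I * om ^ 6 * a₂ * exp (κ * om ^ 2 * I * y)) * hI
    + (-(κ ^ 3 * I * a₁ * exp (κ * om * I * y))
      - κ ^ 3 * I * (om ^ 3 + 1) * a₂ * exp (κ * om ^ 2 * I * y)) * om_cube

lemma tri3_all_zero (κ : ℝ) (hκ : κ ≠ 0) (a₀ a₁ a₂ : ℂ) (r : ℝ) (hr : 0 < r)
    (hre : ∀ y ∈ Ioo (-r) r, (tri3 κ a₀ a₁ a₂ y).re = 0)
    (him : ∀ y ∈ Ioo (-r) r, (tri3 κ a₀ a₁ a₂ y).im = 0) : a₀ = 0 := by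
  have d0 := fun y => hasDerivAt_tri3 κ a₀ a₁ a₂ y
  have d1 := fun y => hasDerivAt_tri3 κ (κ * I * a₀) (κ * I * om * a₁) (κ * I * om ^ 2 * a₂) y
  have r1 := re_deriv_zero d0 hre
  have r2 := re_deriv_zero d1 r1
  have i1 := im_deriv_zero d0 him
  have i2 := im_deriv_zero d1 i1
  have h0 : (0:ℝ) ∈ Ioo (-r) r := ⟨by linarith, hr⟩
  have z0 : tri3 κ a₀ a₁ a₂ 0 = 0 := Complex.ext (hre 0 h0) (him 0 h0)
  have z1 := Complex.ext (z := tri3 κ _ _ _ 0) (w := 0) (r1 0 h0) (i1 0 h0)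
  have z2 := Complex.ext (z := tri3 κ _ _ _ 0) (w := 0) (r2 0 h0) (i2 0 h0)
  simp only [tri3, Complex.ofReal_zero, mul_zero, Complex.exp_zero, mul_one] at z0 z1 z2
  have hκC : (κ:ℂ) ≠ 0 := by exact_mod_cast hκ
  have hI := Complex.I_ne_zero
  have z1' : a₀ + om * a₁ + om ^ 2 * a₂ = 0 := by
    have : (κ:ℂ) * I * (a₀ + om * a₁ + om ^ 2 * a₂) = 0 := by linear_combination z1
    rcases mul_eq_zero.mp this with h | h
    · exact absurd h (mul_ne_zero hκC hI)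
    · exact h
  have z2' : a₀ + om ^ 2 * a₁ + om ^ 4 * a₂ = 0 := by
    have : ((κ:ℂ) * I * (κ * I)) * (a₀ + om ^ 2 * a₁ + om ^ 4 * a₂) = 0 := by
      linear_combination z2
    rcases mul_eq_zero.mp this with h | h
    · exact absurd h (mul_ne_zero (mul_ne_zero hκC hI) (mul_ne_zero hκC hI))
    · exact h
  rw [om_four] at z2'
  have hs := om_sum
  have : 3 * a₀ = 0 := by linear_combination z0 + z1' + z2' - (a₁ + a₂) * hs
  simpa using this

lemma tri3_re_ne (κ : ℝ) (hκ : κ ≠ 0) (a₀ a₁ a₂ : ℂ) (ha : a₀ ≠ 0) (r : ℝ) (hr : 0 < r) :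
    ∃ y ∈ Ioo (-r) r, (tri3 κ a₀ a₁ a₂ y).re ≠ 0 := by
  by_contra hcon
  push Not at hcon
  have d0 := fun y => hasDerivAt_tri3 κ a₀ a₁ a₂ y
  have d1 := fun y => hasDerivAt_tri3 κ (κ * I * a₀) (κ * I * om * a₁) (κ * I * om ^ 2 * a₂) y
  have d2 := fun y => hasDerivAt_tri3 κ (κ * I * (κ * I * a₀)) (κ * I * om * (κ * I * om * a₁))
    (κ * I * om ^ 2 * (κ * I * om ^ 2 * a₂)) y
  have r3 := re_deriv_zero d2 (re_deriv_zero d1 (re_deriv_zero d0 hcon))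
  have him : ∀ y ∈ Ioo (-r) r, (tri3 κ a₀ a₁ a₂ y).im = 0 := by
    intro y hy
    have := r3 y hy
    rw [tri3_third, mul_assoc, neg_mul, Complex.neg_re, Complex.re_ofReal_mul] at this
    have e : (I * tri3 κ a₀ a₁ a₂ y).re = -(tri3 κ a₀ a₁ a₂ y).im := by simp
    rw [e] at this
    have hκ3 : κ ^ 3 ≠ 0 := pow_ne_zero _ hκ
    have h2 : κ ^ 3 * (tri3 κ a₀ a₁ a₂ y).im = 0 := by linarith
    rcases mul_eq_zero.mp h2 with h | h
    · exact absurd h hκ3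
    · exact h
  exact ha (tri3_all_zero κ hκ a₀ a₁ a₂ r hr hcon him)

lemma tri3_im_ne (κ : ℝ) (hκ : κ ≠ 0) (a₀ a₁ a₂ : ℂ) (ha : a₀ ≠ 0) (r : ℝ) (hr : 0 < r) :
    ∃ y ∈ Ioo (-r) r, (tri3 κ a₀ a₁ a₂ y).im ≠ 0 := by
  by_contra hcon
  push Not at hcon
  have d0 := fun y => hasDerivAt_tri3 κ a₀ a₁ a₂ y
  have d1 := fun y => hasDerivAt_tri3 κ (κ * I * a₀) (κ * I * om * a₁) (κ * I * om ^ 2 * a₂) y
  have d2 := fun y => hasDerivAt_tri3 κ (κ * I * (κ * I * a₀)) (κ * I * om * (κ * I * om * a₁))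
    (κ * I * om ^ 2 * (κ * I * om ^ 2 * a₂)) y
  have r3 := im_deriv_zero d2 (im_deriv_zero d1 (im_deriv_zero d0 hcon))
  have hre : ∀ y ∈ Ioo (-r) r, (tri3 κ a₀ a₁ a₂ y).re = 0 := by
    intro y hy
    have := r3 y hy
    rw [tri3_third, mul_assoc, neg_mul, Complex.neg_im, Complex.im_ofReal_mul] at this
    have e : (I * tri3 κ a₀ a₁ a₂ y).im = (tri3 κ a₀ a₁ a₂ y).re := by simp
    rw [e] at this
    have hκ3 : κ ^ 3 ≠ 0 := pow_ne_zero _ hκ
    have h2 : κ ^ 3 * (tri3 κ a₀ a₁ a₂ y).re = 0 := by linarith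
    rcases mul_eq_zero.mp h2 with h | h
    · exact absurd h hκ3
    · exact h
  exact ha (tri3_all_zero κ hκ a₀ a₁ a₂ r hr hre hcon)

/-- A general positivity criterion. -/
lemma mb_self_pos (Φ : ℂ → ℂ) (hΦ : Differentiable ℂ Φ)
    (h : ∃ y ∈ Ioo (-√3) √3, (Φ (1 + y * I)).re ≠ 0) : 0 < mb Φ Φ := by
  have hc : Continuous Φ := hΦ.continuous
  obtain ⟨y, hy, hne⟩ := h
  have hpos : 0 < √(3:ℝ) := Real.sqrt_pos.mpr (by norm_num)
  have h1 : 0 < ∫ t in (0:ℝ)..1, (Φ (1 + (√3 * (2 * t - 1) : ℝ) * Complex.I)).re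
      * (Φ (1 + (√3 * (2 * t - 1) : ℝ) * Complex.I)).re := by
    apply intervalIntegral.integral_pos zero_lt_one
    · apply Continuous.continuousOn; fun_prop
    · intro t _; exact mul_self_nonneg _
    · refine ⟨(y / √3 + 1) / 2, ⟨?_, ?_⟩, ?_⟩
      · have : -1 < y / √3 := by rw [lt_div_iff₀ hpos]; linarith [hy.1]
        linarith
      · have : y / √3 < 1 := by rw [div_lt_iff₀ hpos]; linarith [hy.2]
        linarith
      · have e : √3 * (2 * ((y / √3 + 1) / 2) - 1) = y := by field_simp; ring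
        rw [e]
        exact mul_self_pos.mpr hne
  have h2 : 0 ≤ ∫ t in (0:ℝ)..1, (Φ (om * (1 + (√3 * (2 * t - 1) : ℝ) * Complex.I))).re
      * (Φ (om * (1 + (√3 * (2 * t - 1) : ℝ) * Complex.I))).re :=
    intervalIntegral.integral_nonneg zero_le_one fun t _ => mul_self_nonneg _
  have h3 : 0 ≤ ∫ t in (0:ℝ)..1, (Φ (om ^ 2 * (1 + (√3 * (2 * t - 1) : ℝ) * Complex.I))).re
      * (Φ (om ^ 2 * (1 + (√3 * (2 * t - 1) : ℝ) * Complex.I))).re :=
    intervalIntegral.integral_nonneg zero_le_one fun t _ => mul_self_nonneg _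
  unfold mb
  linarith

lemma mb_Phi0_pos (hκ : κ ≠ 0) (hζ : ζ ^ 3 = 1) : 0 < mb (Phi0 κ σ ζ) (Phi0 κ σ ζ) := by
  apply mb_self_pos _ (fun ξ => (hasDerivAt_Phi0 κ σ ζ ξ).differentiableAt)
  obtain ⟨y, hy, hne⟩ := tri3_re_ne κ hκ (2 * κ) (mc1 κ σ ζ) (mc2 κ σ ζ)
    (mul_ne_zero two_ne_zero (by exact_mod_cast hκ)) (√3) (Real.sqrt_pos.mpr (by norm_num))
  refine ⟨y, hy, ?_⟩
  rw [re_Phi0, mU_side hζ]
  exact hne

lemma mb_Phi1_pos (hκ : κ ≠ 0) (hζ : ζ ^ 3 = 1) : 0 < mb (Phi1 κ σ ζ) (Phi1 κ σ ζ) := by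
  apply mb_self_pos _ (fun ξ => (hasDerivAt_Phi1 κ σ ζ ξ).differentiableAt)
  obtain ⟨y, hy, hne⟩ := tri3_im_ne κ hκ (2 * κ) (mc1 κ σ ζ) (mc2 κ σ ζ)
    (mul_ne_zero two_ne_zero (by exact_mod_cast hκ)) (√3) (Real.sqrt_pos.mpr (by norm_num))
  refine ⟨y, hy, ?_⟩
  rw [re_Phi1, mU_side hζ]
  exact hne

lemma conj_mU_side (hζ : ζ ^ 3 = 1) (y : ℝ) :
    conj (mU κ σ ζ (1 + y * I)) = mU κ σ ζ (1 + (-y : ℝ) * I) := by
  rw [mU_side hζ, mU_side hζ]
  have c1 : conj (mc1 κ σ ζ) = mc2 κ σ ζ := by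
    unfold mc1 mc2
    simp only [map_add, map_mul, Complex.conj_ofReal, conj_zeta hζ, conj_zeta_sq hζ,
      ← Complex.exp_conj, conj_om, map_neg]
  have c2 : conj (mc2 κ σ ζ) = mc1 κ σ ζ := by rw [← c1, Complex.conj_conj]
  simp only [map_add, map_mul, Complex.conj_ofReal, c1, c2, ← Complex.exp_conj, conj_om,
    conj_om_sq, Complex.conj_I, map_one]
  have h2 : (starRingEnd ℂ) 2 = 2 := by
    have := Complex.conj_ofReal 2; simpa using this
  rw [h2]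
  push_cast
  have e1 : (κ:ℂ) * 1 * -I * y = κ * 1 * I * -y := by ring
  have e2 : (κ:ℂ) * om ^ 2 * -I * y = κ * om ^ 2 * I * -y := by ring
  have e3 : (κ:ℂ) * om * -I * y = κ * om * I * -y := by ring
  rw [e1, e2, e3]
  ring

lemma mb_Phi01 (hζ : ζ ^ 3 = 1) : mb (Phi0 κ σ ζ) (Phi1 κ σ ζ) = 0 := by
  have hcont : Continuous (mU κ σ ζ) := by
    have c1 : Continuous (mF κ σ ζ) := by unfold mF; fun_prop
    have c2 : Continuous (mH κ σ ζ) := by unfold mH; fun_prop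
    unfold mU
    exact c1.add (Complex.continuous_conj.comp c2)
  set f : ℝ → ℂ := fun t => mU κ σ ζ (1 + (√3 * (2 * t - 1) : ℝ) * I) with hf
  have hfc : Continuous f := by
    rw [hf]; exact hcont.comp (by fun_prop)
  have hsymm : ∀ t, f (1 - t) = conj (f t) := by
    intro t
    simp only [hf]
    rw [conj_mU_side hζ]
    congr 3
    push_cast; ring
  -- integral with constant c
  have key : ∀ c : ℂ, (∫ t in (0:ℝ)..1, (c * f t ^ 2).im) = -∫ t in (0:ℝ)..1, (conj c * f t ^ 2).im := by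
    intro c
    have h1 := intervalIntegral.integral_comp_sub_left (a := 0) (b := 1)
      (fun t : ℝ => (c * f t ^ 2).im) 1
    simp only [sub_self, sub_zero] at h1
    rw [← h1, ← intervalIntegral.integral_neg]
    apply intervalIntegral.integral_congr
    intro t _
    simp only
    rw [hsymm, ← Complex.conj_im, map_mul, map_pow, Complex.conj_conj]
  have hprod : ∀ w : ℂ, w.re * w.im = (1/2) * (w ^ 2).im := by
    intro w; simp [pow_two]; ring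
  have t0 : ∀ t : ℝ, (Phi0 κ σ ζ (1 + (√3 * (2 * t - 1) : ℝ) * Complex.I)).re
      * (Phi1 κ σ ζ (1 + (√3 * (2 * t - 1) : ℝ) * Complex.I)).re = (1/2) * (1 * f t ^ 2).im := by
    intro t; rw [re_Phi0, re_Phi1, hprod, one_mul]
  have t1 : ∀ t : ℝ, (Phi0 κ σ ζ (om * (1 + (√3 * (2 * t - 1) : ℝ) * Complex.I))).re
      * (Phi1 κ σ ζ (om * (1 + (√3 * (2 * t - 1) : ℝ) * Complex.I))).re
      = (1/2) * (ζ ^ 2 * f t ^ 2).im := by
    intro t; rw [re_Phi0, re_Phi1, mU_om hζ, hprod, mul_pow]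
  have t2 : ∀ t : ℝ, (Phi0 κ σ ζ (om ^ 2 * (1 + (√3 * (2 * t - 1) : ℝ) * Complex.I))).re
      * (Phi1 κ σ ζ (om ^ 2 * (1 + (√3 * (2 * t - 1) : ℝ) * Complex.I))).re
      = (1/2) * (ζ * f t ^ 2).im := by
    intro t
    have e0 : om ^ 2 * (1 + (√3 * (2 * t - 1) : ℝ) * I)
        = om * (om * (1 + (√3 * (2 * t - 1) : ℝ) * I)) := by ring
    rw [re_Phi0, re_Phi1, e0, mU_om hζ, mU_om hζ, hprod]
    congr 2
    calc (ζ * (ζ * mU κ σ ζ (1 + (√3 * (2 * t - 1) : ℝ) * I))) ^ 2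
        = ζ ^ 3 * ζ * mU κ σ ζ (1 + (√3 * (2 * t - 1) : ℝ) * I) ^ 2 := by ring
      _ = ζ * f t ^ 2 := by rw [hζ, one_mul]
  unfold mb
  simp only [t0, t1, t2]
  rw [intervalIntegral.integral_const_mul, intervalIntegral.integral_const_mul,
    intervalIntegral.integral_const_mul]
  have k0 := key 1
  have k1 := key ζ
  rw [map_one] at k0
  rw [conj_zeta hζ] at k1
  linarith

end Pool.Agent.Steklov
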