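import Mathlib
import Pool.Agent.Steklov.Modes2

open MeasureTheory Set
open scoped ContDiff ComplexConjugate

namespace Pool.Agent.Steklov

open Complex (exp I)

noncomputable def nm (t : ℝ) : ℝ := √(t ^ 2 + t + 1)
noncomputable def np (t : ℝ) : ℝ := √(t ^ 2 - t + 1)

lemma nm_pos (t : ℝ) : 0 < nm t := Real.sqrt_pos.mpr (by nlinarith [sq_nonneg (t + 1/2)])
lemma np_pos (t : ℝ) : 0 < np t := Real.sqrt_pos.mpr (by nlinarith [sq_nonneg (t - 1/2)])
lemma nm_sq (t : ℝ) : nm t * nm t = t ^ 2 + t + 1 :=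
  Real.mul_self_sqrt (by nlinarith [sq_nonneg (t + 1/2)])
lemma np_sq (t : ℝ) : np t * np t = t ^ 2 - t + 1 :=
  Real.mul_self_sqrt (by nlinarith [sq_nonneg (t - 1/2)])

lemma np_le_nm {t : ℝ} (ht : 0 < t) : np t ≤ nm t := Real.sqrt_le_sqrt (by linarith)

lemma nm_le (t : ℝ) : nm t ≤ √3 * np t := by
  unfold nm np
  rw [← Real.sqrt_mul (by norm_num)]
  apply Real.sqrt_le_sqrt
  nlinarith [sq_nonneg (1 - t)]

/-- the argument of the logarithm -/
noncomputable def qq (t : ℝ) : ℝ := (1 + t) * nm t / (|1 - t| * np t)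

noncomputable def KK (t : ℝ) : ℝ := (1/3) * Real.log (qq t)

noncomputable def xx (t : ℝ) : ℝ := (t ^ 2 - 1) / (√3 * t)

noncomputable def GG (t : ℝ) : ℝ := √3 * KK t + (Real.pi / 2 + Real.arctan (xx t))

lemma qq_pos {t : ℝ} (ht : 0 < t) (h1 : t ≠ 1) : 0 < qq t := by
  have := nm_pos t
  have := np_pos t
  have : 0 < |1 - t| := abs_pos.mpr (sub_ne_zero.mpr (Ne.symm h1))
  unfold qq; positivity

lemma qq_gt_one {t : ℝ} (ht : 0 < t) (h1 : t ≠ 1) : 1 < qq t := by
  have hnm := nm_pos t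
  have hnp := np_pos t
  have ha : 0 < |1 - t| := abs_pos.mpr (sub_ne_zero.mpr (Ne.symm h1))
  unfold qq
  rw [one_lt_div (by positivity)]
  have h2 : |1 - t| < 1 + t := by rw [abs_lt]; constructor <;> linarith
  calc |1 - t| * np t < (1 + t) * np t := mul_lt_mul_of_pos_right h2 hnp
    _ ≤ (1 + t) * nm t := mul_le_mul_of_nonneg_left (np_le_nm ht) (by linarith)

lemma KK_pos {t : ℝ} (ht : 0 < t) (h1 : t ≠ 1) : 0 < KK t := by
  unfold KK
  have := Real.log_pos (qq_gt_one ht h1)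
  positivity

/-- polar form of `(ω - t)/(ω + t)` -/
lemma exp_arg {t : ℝ} (ht : 0 < t) :
    exp ((Real.pi / 2 + Real.arctan (xx t) : ℝ) * I) * (om + t) * nm t = (om - t) * np t := by
  have hnm := nm_pos t
  have hnp := np_pos t
  have h3 : 0 < √(3:ℝ) := Real.sqrt_pos.mpr (by norm_num)
  have hx : √(1 + xx t ^ 2) = nm t * np t / (√3 * t) := by
    rw [Real.sqrt_eq_iff_mul_self_eq (by positivity) (by positivity)]
    unfold xx
    have e1 : nm t * np t / (√3 * t) * (nm t * np t / (√3 * t))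
        = (nm t * nm t) * (np t * np t) / ((√3 * √3) * t ^ 2) := by
      field_simp
    rw [e1, nm_sq, np_sq, sq3]
    rw [div_pow, mul_pow, pow_two √3, sq3]
    field_simp
    ring
  have hcos : Real.cos (Real.arctan (xx t)) = √3 * t / (nm t * np t) := by
    rw [Real.cos_arctan, hx]; field_simp
  have hsin : Real.sin (Real.arctan (xx t)) = (t ^ 2 - 1) / (nm t * np t) := by
    rw [Real.sin_arctan, hx]; unfold xx; field_simp
  rw [Complex.exp_mul_I, ← Complex.ofReal_cos, ← Complex.ofReal_sin, add_comm (Real.pi / 2),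
    Real.cos_add_pi_div_two, Real.sin_add_pi_div_two, hcos, hsin]
  have hnmC : (nm t : ℂ) ≠ 0 := by exact_mod_cast hnm.ne'
  have hnpC : (np t : ℂ) ≠ 0 := by exact_mod_cast hnp.ne'
  push_cast
  field_simp
  have e2 : (np t : ℂ) ^ 2 = t ^ 2 - t + 1 := by
    have := np_sq t
    rw [← pow_two] at this
    exact_mod_cast this
  rw [e2, om_eq]
  have hI : I ^ 2 = -1 := Complex.I_sq
  have h3C := sq3C
  linear_combination (1/2) * t * I ^ 2 * h3C + (3/2) * t * hI

lemma exp_neg_three {t : ℝ} (ht : 0 < t) (h1 : t ≠ 1) :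
    Real.exp (-3 * KK t) * ((1 + t) * nm t) = |1 - t| * np t := by
  have hq := qq_pos ht h1
  have e : -3 * KK t = -Real.log (qq t) := by unfold KK; ring
  rw [e, Real.exp_neg, Real.exp_log hq]
  have := nm_pos t
  have := np_pos t
  have : 0 < |1 - t| := abs_pos.mpr (sub_ne_zero.mpr (Ne.symm h1))
  unfold qq
  field_simp

/-- The eigenvalue equation. -/
lemma key_eq {t : ℝ} (ht : 0 < t) (h1 : t ≠ 1) (ε : ℝ) (hε : ε * |1 - t| = 1 - t) :
    ((KK t + t * KK t) * Real.exp (-KK t) : ℝ) * (ε * exp (-(GG t) * I)) * (KK t * om - (t * KK t : ℝ))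
        * exp (KK t * om)
      = ((KK t - t * KK t) * Real.exp (KK t) : ℝ) * (KK t * om + (t * KK t : ℝ))
        * exp (-KK t * om) := by
  have h3 := exp_neg_three ht h1
  have ha := exp_arg ht
  have hnmC : (nm t : ℂ) ≠ 0 := by exact_mod_cast (nm_pos t).ne'
  have hnpC : (np t : ℂ) ≠ 0 := by exact_mod_cast (np_pos t).ne'
  set κ := KK t with hκ
  set A : ℝ := Real.pi / 2 + Real.arctan (xx t) with hA
  have hG : GG t = √3 * κ + A := rfl
  -- express exponentials
  have e1 : exp (-(GG t : ℂ) * I) = exp (-(√3 * κ : ℝ) * I) * exp (-(A : ℝ) * I) := by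
    rw [← Complex.exp_add, hG]; congr 1; push_cast; ring
  have e2 : exp ((κ:ℂ) * om) = (Real.exp (-κ/2) : ℝ) * exp ((√3 * κ / 2 : ℝ) * I) := by
    rw [Complex.ofReal_exp, ← Complex.exp_add, om_eq]; congr 1; push_cast; ring
  have e3 : exp (-(κ:ℂ) * om) = (Real.exp (κ/2) : ℝ) * exp (-(√3 * κ / 2 : ℝ) * I) := by
    rw [Complex.ofReal_exp, ← Complex.exp_add, om_eq]; congr 1; push_cast; ring
  have e4 : exp (-(√3 * κ : ℝ) * I) * exp ((√3 * κ / 2 : ℝ) * I) = exp (-(√3 * κ / 2 : ℝ) * I) := by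
    rw [← Complex.exp_add]; congr 1; push_cast; ring
  have e5 : exp (-(A:ℝ) * I) * exp ((A:ℝ) * I) = 1 := by
    rw [← Complex.exp_add]; simp
  have r1 : Real.exp (-κ) * Real.exp (-κ/2) = Real.exp (-3 * κ) * (Real.exp κ * Real.exp (κ/2)) := by
    rw [← Real.exp_add, ← Real.exp_add, ← Real.exp_add]; congr 1; ring
  have r1C : (Real.exp (-κ) : ℂ) * Real.exp (-κ/2)
      = Real.exp (-3 * κ) * (Real.exp κ * Real.exp (κ/2)) := by exact_mod_cast r1
  have h3C : (Real.exp (-3 * κ) : ℂ) * ((1 + t) * nm t) = |1 - t| * np t := by exact_mod_cast h3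
  have hεC : (ε : ℂ) * |1 - t| = 1 - t := by exact_mod_cast hε
  rw [e1, e2, e3]
  -- main algebra
  have main : (1 + (t:ℂ)) * Real.exp (-3 * κ) * ε * exp (-(A:ℝ) * I) * (om - t)
      = (1 - t) * (om + t) := by
    have q1 : (1 + (t:ℂ)) * Real.exp (-3 * κ) * ε * exp (-(A:ℝ) * I) * (om - t) * (nm t * np t)
        = (1 - t) * (om + t) * (nm t * np t) := by
      calc (1 + (t:ℂ)) * Real.exp (-3 * κ) * ε * exp (-(A:ℝ) * I) * (om - t) * (nm t * np t)
          = (Real.exp (-3 * κ) * ((1 + t) * nm t)) * ε * exp (-(A:ℝ) * I) * ((om - t) * np t) := by ring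
        _ = (|1 - t| * np t) * ε * exp (-(A:ℝ) * I) * (exp ((A:ℝ) * I) * (om + t) * nm t) := by
            rw [h3C, ha]
        _ = (ε * |1 - t|) * (exp (-(A:ℝ) * I) * exp ((A:ℝ) * I)) * (om + t) * (nm t * np t) := by ring
        _ = (1 - t) * (om + t) * (nm t * np t) := by rw [hεC, e5]; ring
    exact mul_right_cancel₀ (mul_ne_zero hnmC hnpC) q1
  push_cast
  push_cast at e4 r1C main
  linear_combination
    (κ ^ 2 * (1 + t) * ε * exp (-A * I) * (om - t) * exp (-(√3 * κ / 2) * I)) * r1C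
    + (κ ^ 2 * exp κ * exp (κ / 2) * exp (-(√3 * κ / 2) * I)) * main
    + (κ ^ 2 * (1 + t) * ε * exp (-A * I) * (om - t) * exp (-κ) * exp (-κ / 2)) * e4

end Pool.Agent.Steklov
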