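import Mathlib
import Pool.Agent.Steklov.Roots

open MeasureTheory Set
open scoped ContDiff ComplexConjugate

namespace Pool.Agent.Steklov

open Complex (exp I)

lemma arctan_le_self {x : ℝ} (hx : 0 ≤ x) : Real.arctan x ≤ x := by
  rcases hx.eq_or_lt with h | h
  · rw [← h]; simp
  · have h1 : 0 < Real.arctan x := Real.arctan_pos.mpr h
    have h2 := Real.lt_tan h1 (Real.arctan_lt_pi_div_two x)
    rw [Real.tan_arctan] at h2
    exact h2.le

lemma continuousOn_GG (s : Set ℝ) (hs : ∀ t ∈ s, 0 < t ∧ t ≠ 1) : ContinuousOn GG s := by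
  have hq : ContinuousOn qq s := by
    unfold qq nm np
    apply ContinuousOn.div
    · fun_prop
    · fun_prop
    · intro t ht
      have h1 := np_pos t
      have h2 : 0 < |1 - t| := abs_pos.mpr (sub_ne_zero.mpr (Ne.symm (hs t ht).2))
      exact (mul_pos h2 h1).ne'
  have hx : ContinuousOn xx s := by
    unfold xx
    apply ContinuousOn.div
    · fun_prop
    · fun_prop
    · intro t ht
      have h3 : 0 < √(3:ℝ) := Real.sqrt_pos.mpr (by norm_num)
      exact (mul_pos h3 (hs t ht).1).ne'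
  unfold GG KK
  apply ContinuousOn.add
  · apply ContinuousOn.mul continuousOn_const
    apply ContinuousOn.mul continuousOn_const
    exact hq.log fun t ht => (qq_pos (hs t ht).1 (hs t ht).2).ne'
  · exact continuousOn_const.add (Real.continuous_arctan.comp_continuousOn hx)

lemma sqrt3_pos : 0 < √(3:ℝ) := Real.sqrt_pos.mpr (by norm_num)

/-- `G` is large near `1`. -/
lemma GG_ge {t : ℝ} (ht : 0 < t) (h1 : t ≠ 1) : -Real.log |1 - t| / √3 ≤ GG t := by
  have ha : 0 < |1 - t| := abs_pos.mpr (sub_ne_zero.mpr (Ne.symm h1))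
  have hnm := nm_pos t
  have hnp := np_pos t
  have hs := sqrt3_pos
  have h2 : |1 - t|⁻¹ ≤ qq t := by
    unfold qq
    rw [le_div_iff₀ (by positivity)]
    have : |1 - t|⁻¹ * (|1 - t| * np t) = np t := by field_simp
    rw [this]
    calc np t ≤ nm t := np_le_nm ht
      _ ≤ (1 + t) * nm t := by nlinarith
  have h3 : -Real.log |1 - t| ≤ Real.log (qq t) := by
    rw [← Real.log_inv]
    exact Real.log_le_log (by positivity) h2
  have h4 : 0 < Real.pi / 2 + Real.arctan (xx t) := by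
    linarith [Real.neg_pi_div_two_lt_arctan (xx t)]
  have h5 : √3 * KK t = Real.log (qq t) / √3 := by
    unfold KK
    field_simp
    rw [pow_two, sq3]
  unfold GG
  rw [h5]
  have : -Real.log |1 - t| / √3 ≤ Real.log (qq t) / √3 := by gcongr
  linarith

lemma exists_lt_one {θ ta : ℝ} (h0 : 0 < ta) (h1 : ta < 1) (h : GG ta ≤ θ) :
    ∃ t, ta ≤ t ∧ t < 1 ∧ GG t = θ := by
  set tb : ℝ := max ta (1 - Real.exp (-√3 * θ)) with htb
  have hs := sqrt3_pos
  have hb1 : tb < 1 := max_lt h1 (by linarith [Real.exp_pos (-√3 * θ)])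
  have hba : ta ≤ tb := le_max_left _ _
  have hb0 : 0 < tb := lt_of_lt_of_le h0 hba
  have hGb : θ ≤ GG tb := by
    refine le_trans ?_ (GG_ge hb0 hb1.ne)
    rw [le_div_iff₀ hs, abs_of_pos (by linarith)]
    have h2 : 1 - tb ≤ Real.exp (-√3 * θ) := by
      have := le_max_right ta (1 - Real.exp (-√3 * θ))
      rw [← htb] at this; linarith
    have h3 := Real.log_le_log (by linarith) h2
    rw [Real.log_exp] at h3
    linarith
  have hc : ContinuousOn GG (Icc ta tb) :=
    continuousOn_GG _ fun t ht => ⟨lt_of_lt_of_le h0 ht.1, (lt_of_le_of_lt ht.2 hb1).ne⟩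
  obtain ⟨t, ht, hGt⟩ := intermediate_value_Icc hba hc ⟨h, hGb⟩
  exact ⟨t, ht.1, lt_of_le_of_lt ht.2 hb1, hGt⟩

lemma exists_gt_one {θ ta : ℝ} (h1 : 1 < ta) (h : GG ta ≤ θ) :
    ∃ t, 1 < t ∧ t ≤ ta ∧ GG t = θ := by
  set tb : ℝ := min ta (1 + Real.exp (-√3 * θ)) with htb
  have hs := sqrt3_pos
  have hb1 : 1 < tb := lt_min h1 (by linarith [Real.exp_pos (-√3 * θ)])
  have hba : tb ≤ ta := min_le_left _ _
  have hGb : θ ≤ GG tb := by
    refine le_trans ?_ (GG_ge (by linarith) hb1.ne')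
    rw [le_div_iff₀ hs, abs_sub_comm, abs_of_pos (by linarith)]
    have h2 : tb - 1 ≤ Real.exp (-√3 * θ) := by
      have := min_le_right ta (1 + Real.exp (-√3 * θ))
      rw [← htb] at this; linarith
    have h3 := Real.log_le_log (by linarith) h2
    rw [Real.log_exp] at h3
    linarith
  have hc : ContinuousOn GG (Icc tb ta) :=
    continuousOn_GG _ fun t ht => ⟨by linarith [ht.1], by
      have := lt_of_lt_of_le hb1 ht.1; exact this.ne'⟩
  obtain ⟨t, ht, hGt⟩ := intermediate_value_Icc' hba hc ⟨h, hGb⟩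
  exact ⟨t, lt_of_lt_of_le hb1 ht.1, ht.2, hGt⟩

/-- upper bound of `G`. -/
lemma GG_le {t : ℝ} (ht : 0 < t) (h1 : t ≠ 1) (B a : ℝ) (hB : √3 * (1 + t) / |1 - t| ≤ B)
    (ha : Real.arctan (xx t) ≤ a) : GG t ≤ Real.log B / √3 + Real.pi / 2 + a := by
  have habs : 0 < |1 - t| := abs_pos.mpr (sub_ne_zero.mpr (Ne.symm h1))
  have hnm := nm_pos t
  have hnp := np_pos t
  have hs := sqrt3_pos
  have h5 : √3 * KK t = Real.log (qq t) / √3 := by
    unfold KK
    field_simp
    rw [pow_two, sq3]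
  have h2 : qq t ≤ B := by
    refine le_trans ?_ hB
    unfold qq
    rw [div_le_div_iff₀ (by positivity) habs]
    have h3 := nm_le t
    calc (1 + t) * nm t * |1 - t| ≤ (1 + t) * (√3 * np t) * |1 - t| := by
          gcongr
      _ = √3 * (1 + t) * (|1 - t| * np t) := by ring
  have h6 : Real.log (qq t) / √3 ≤ Real.log B / √3 := by
    have := Real.log_le_log (qq_pos ht h1) h2
    gcongr
  unfold GG
  rw [h5]
  linarith

lemma sqrt3_lb : (1.732:ℝ) ≤ √3 := Real.le_sqrt_of_sq_le (by norm_num)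
lemma sqrt3_ub : √3 ≤ (1.7321:ℝ) := Real.sqrt_le_iff.mpr ⟨by norm_num, by norm_num⟩

/-- growth estimate -/
lemma growth (m : ℕ) (hm : 1 ≤ m) :
    36 * 2 ^ m ≤ Real.exp (√3 * Real.pi * (1/2 + m/3) - 1/10) := by
  have h3 := sqrt3_lb
  have hpi := Real.pi_gt_d2
  have hprod : (5.438:ℝ) ≤ √3 * Real.pi := by nlinarith
  induction m, hm using Nat.le_induction with
  | base =>
    have h1 : (4.43:ℝ) ≤ √3 * Real.pi * (1/2 + (1:ℕ)/3) - 1/10 := by
      push_cast; nlinarith
    have h2 : (72:ℝ) ≤ Real.exp 4.43 := by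
      have e : Real.exp (4.43:ℝ) = Real.exp 1 ^ 4 * Real.exp 0.43 := by
        rw [← Real.exp_nat_mul, ← Real.exp_add]; norm_num
      rw [e]
      have e1 := Real.exp_one_gt_d9
      have e2 := Real.add_one_le_exp (0.43:ℝ)
      have e3 : (2.718:ℝ) ^ 4 ≤ Real.exp 1 ^ 4 := by
        apply pow_le_pow_left₀ (by norm_num); linarith
      have e4 : (1.43:ℝ) ≤ Real.exp 0.43 := by linarith
      calc (72:ℝ) ≤ 2.718 ^ 4 * 1.43 := by norm_num
        _ ≤ Real.exp 1 ^ 4 * Real.exp 0.43 := by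
          apply mul_le_mul e3 e4 (by norm_num) (by positivity)
    calc (36:ℝ) * 2 ^ 1 = 72 := by norm_num
      _ ≤ Real.exp 4.43 := h2
      _ ≤ _ := Real.exp_le_exp.mpr h1
  | succ n hn ih =>
    have e : √3 * Real.pi * (1/2 + ((n + 1 : ℕ) : ℝ)/3) - 1/10
        = (√3 * Real.pi * (1/2 + n/3) - 1/10) + √3 * Real.pi / 3 := by push_cast; ring
    rw [e, Real.exp_add]
    have h2 : (2:ℝ) ≤ Real.exp (√3 * Real.pi / 3) := by
      have := Real.add_one_le_exp (√3 * Real.pi / 3)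
      nlinarith
    calc (36:ℝ) * 2 ^ (n + 1) = (36 * 2 ^ n) * 2 := by ring
      _ ≤ _ := mul_le_mul ih h2 (by norm_num) (by positivity)

noncomputable def dl (m : ℕ) : ℝ := 1 / (10 * 2 ^ m)

lemma dl_pos (m : ℕ) : 0 < dl m := by unfold dl; positivity

lemma dl_le (m : ℕ) (hm : 1 ≤ m) : dl m ≤ 1/20 := by
  unfold dl
  rw [div_le_div_iff₀ (by positivity) (by norm_num)]
  have : (2:ℝ) ^ 1 ≤ 2 ^ m := pow_le_pow_right₀ (by norm_num) hm
  linarith

lemma dl_mul (m : ℕ) (hm : 1 ≤ m) : (3 + 2 * m) * dl m < 1 := by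
  unfold dl
  rw [mul_one_div, div_lt_one (by positivity)]
  have : (m:ℝ) + 1 ≤ 2 ^ m := by
    have := Nat.lt_two_pow_self (n := m)
    exact_mod_cast this
  linarith

lemma log_growth (m : ℕ) (hm : 1 ≤ m) :
    Real.log (36 * 2 ^ m) / √3 + Real.pi / 2 + 1 / (10 * √3) ≤ Real.pi * (1 + m / 3) := by
  have h := growth m hm
  have hs := sqrt3_pos
  have h1 : Real.log (36 * 2 ^ m) ≤ √3 * Real.pi * (1/2 + m/3) - 1/10 := by
    rw [Real.log_le_iff_le_exp (by positivity)]; exact h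
  have h2 : Real.log (36 * 2 ^ m) / √3 ≤ (√3 * Real.pi * (1/2 + m/3) - 1/10) / √3 := by gcongr
  have h3 : (√3 * Real.pi * (1/2 + m/3) - 1/10) / √3 = Real.pi * (1/2 + m/3) - 1 / (10 * √3) := by
    field_simp
  rw [h3] at h2
  linarith

lemma GG_lo (m : ℕ) (hm : 1 ≤ m) : GG (1 - dl m) ≤ Real.pi * (1 + m / 3) := by
  have hp := dl_pos m
  have hl := dl_le m hm
  have hs := sqrt3_pos
  have h := GG_le (t := 1 - dl m) (by linarith) (by linarith) (36 * 2 ^ m) 0 ?_ ?_
  · have := log_growth m hm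
    have h2 : 0 < 1 / (10 * √3) := by positivity
    linarith
  · have e : |1 - (1 - dl m)| = dl m := by rw [sub_sub_cancel, abs_of_pos hp]
    rw [e, div_le_iff₀ hp]
    have h3 := sqrt3_ub
    have : (36:ℝ) * 2 ^ m * dl m = 3.6 := by unfold dl; field_simp; norm_num
    rw [this]
    nlinarith
  · apply Real.arctan_le_zero.mpr
    unfold xx
    apply div_nonpos_of_nonpos_of_nonneg
    · nlinarith
    · have : 0 < 1 - dl m := by linarith
      positivity

lemma GG_hi (m : ℕ) (hm : 1 ≤ m) : GG (1 + dl m) ≤ Real.pi * (1 + m / 3) := by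
  have hp := dl_pos m
  have hl := dl_le m hm
  have hs := sqrt3_pos
  have h := GG_le (t := 1 + dl m) (by linarith) (by linarith) (36 * 2 ^ m) (1 / (10 * √3)) ?_ ?_
  · have := log_growth m hm
    linarith
  · have e : |1 - (1 + dl m)| = dl m := by rw [abs_sub_comm]; simp [abs_of_pos hp]
    rw [e, div_le_iff₀ hp]
    have h3 := sqrt3_ub
    have : (36:ℝ) * 2 ^ m * dl m = 3.6 := by unfold dl; field_simp; norm_num
    rw [this]
    nlinarith
  · have hx : xx (1 + dl m) ≤ 1 / (10 * √3) := by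
      unfold xx
      rw [div_le_div_iff₀ (by positivity) (by positivity)]
      have : ((1 + dl m) ^ 2 - 1) ≤ (1/10) * (1 + dl m) := by nlinarith
      nlinarith
    have hx0 : 0 ≤ xx (1 + dl m) := by
      unfold xx
      apply div_nonneg
      · nlinarith
      · positivity
    exact le_trans (arctan_le_self hx0) hx

/-- The normalised eigenvalue `L σ = 6√3 t K(t)`. -/
lemma six_sigma {t θ : ℝ} (h : GG t = θ) :
    6 * √3 * (t * KK t) = 6 * t * (θ - Real.pi / 2) - 6 * t * Real.arctan (xx t) := by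
  rw [← h]; unfold GG; ring

lemma mul_xx {t : ℝ} (ht : 0 < t) : t * xx t = (t ^ 2 - 1) / √3 := by
  have hs := sqrt3_pos
  unfold xx; field_simp

lemma bounds_lt {t θ : ℝ} (h0 : 0 < t) (h1 : t < 1) (h : GG t = θ) :
    6 * t * (θ - Real.pi / 2) ≤ 6 * √3 * (t * KK t) ∧
    6 * √3 * (t * KK t) ≤ 6 * t * (θ - Real.pi / 2) + 6 * (1 - t ^ 2) / √3 := by
  rw [six_sigma h]
  have hs := sqrt3_pos
  have hx : xx t ≤ 0 := by
    unfold xx
    apply div_nonpos_of_nonpos_of_nonneg
    · nlinarith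
    · positivity
  have ha : Real.arctan (xx t) ≤ 0 := Real.arctan_le_zero.mpr hx
  have hb : -Real.arctan (xx t) ≤ -xx t := by
    rw [← Real.arctan_neg]; exact arctan_le_self (by linarith)
  constructor
  · have : 6 * t * Real.arctan (xx t) ≤ 0 := mul_nonpos_of_nonneg_of_nonpos (by positivity) ha
    linarith
  · have h2 : t * (-Real.arctan (xx t)) ≤ t * (-xx t) := mul_le_mul_of_nonneg_left hb h0.le
    have h3 : t * (-xx t) = (1 - t ^ 2) / √3 := by
      rw [mul_neg, mul_xx h0]; ring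
    rw [h3] at h2
    have : 6 * (1 - t ^ 2) / √3 = 6 * ((1 - t ^ 2) / √3) := by ring
    rw [this]
    linarith

lemma bounds_gt {t θ : ℝ} (h1 : 1 < t) (h : GG t = θ) :
    6 * √3 * (t * KK t) ≤ 6 * t * (θ - Real.pi / 2) ∧
    6 * t * (θ - Real.pi / 2) - 6 * (t ^ 2 - 1) / √3 ≤ 6 * √3 * (t * KK t) := by
  rw [six_sigma h]
  have hs := sqrt3_pos
  have h0 : 0 < t := by linarith
  have hx : 0 ≤ xx t := by
    unfold xx
    apply div_nonneg
    · nlinarith
    · positivity
  have ha : 0 ≤ Real.arctan (xx t) := Real.arctan_nonneg.mpr hx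
  have hb : Real.arctan (xx t) ≤ xx t := arctan_le_self hx
  constructor
  · have : 0 ≤ 6 * t * Real.arctan (xx t) := by positivity
    linarith
  · have h2 : t * Real.arctan (xx t) ≤ t * xx t := mul_le_mul_of_nonneg_left hb h0.le
    rw [mul_xx h0] at h2
    have : 6 * (t ^ 2 - 1) / √3 = 6 * ((t ^ 2 - 1) / √3) := by ring
    rw [this]
    linarith

end Pool.Agent.Steklov
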