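import Mathlib
import Pool.Agent.Steklov.Roots2

open MeasureTheory Set
open scoped ContDiff ComplexConjugate

namespace Pool.Agent.Steklov

open Complex (exp I)

/-- A pair of orthogonal model Steklov functions with the same eigenvalue. -/
structure BlockData (σ : ℝ) (Φ₀ Φ₁ : ℂ → ℂ) : Prop where
  mod0 : IsModel Φ₀ σ
  mod1 : IsModel Φ₁ σ
  orth : mb Φ₀ Φ₁ = 0
  pos0 : 0 < mb Φ₀ Φ₀
  pos1 : 0 < mb Φ₁ Φ₁

lemma block_of_root {t θ ε : ℝ} (ht : 0 < t) (h1 : t ≠ 1) (hε : ε * |1 - t| = 1 - t)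
    (hG : GG t = θ) (hζ : ((ε : ℂ) * exp (-(θ : ℝ) * I)) ^ 3 = 1) :
    BlockData (t * KK t) (Phi0 (KK t) (t * KK t) (ε * exp (-(θ : ℝ) * I)))
      (Phi1 (KK t) (t * KK t) (ε * exp (-(θ : ℝ) * I))) := by
  have hK := key_eq ht h1 ε hε
  rw [hG] at hK
  have hκ : KK t ≠ 0 := (KK_pos ht h1).ne'
  exact ⟨isModel_Phi0 hζ hK, isModel_Phi1 hζ hK, mb_Phi01 hζ, mb_Phi0_pos hκ hζ, mb_Phi1_pos hκ hζ⟩

lemma zeta_cube_odd (m : ℕ) (hm : Odd m) :
    (((1:ℝ) : ℂ) * exp (-((Real.pi * (1 + m / 3) : ℝ) : ℂ) * I)) ^ 3 = 1 := by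
  rw [mul_pow, ← Complex.exp_nat_mul]
  obtain ⟨k, rfl⟩ := hm
  have : ((3:ℕ):ℂ) * (-((Real.pi * (1 + ((2 * k + 1 : ℕ) : ℝ) / 3) : ℝ) : ℂ) * I)
      = ((-(k + 2) : ℤ) : ℂ) * (2 * Real.pi * I) := by
    push_cast; ring
  rw [this, Complex.exp_int_mul_two_pi_mul_I]; simp

lemma zeta_cube_even (m : ℕ) (hm : Even m) :
    (((-1:ℝ) : ℂ) * exp (-((Real.pi * (1 + m / 3) : ℝ) : ℂ) * I)) ^ 3 = 1 := by
  rw [mul_pow, ← Complex.exp_nat_mul]
  obtain ⟨k, rfl⟩ := hm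
  have : ((3:ℕ):ℂ) * (-((Real.pi * (1 + ((k + k : ℕ) : ℝ) / 3) : ℝ) : ℂ) * I)
      = ((-(k + 2) : ℤ) : ℂ) * (2 * Real.pi * I) + Real.pi * I := by
    push_cast; ring
  rw [this, Complex.exp_add, Complex.exp_int_mul_two_pi_mul_I, Complex.exp_pi_mul_I]
  push_cast; norm_num

/-- blocks `m ≥ 1`. -/
lemma exists_block_m (m : ℕ) (hm : 1 ≤ m) : ∃ (σ : ℝ) (Φ₀ Φ₁ : ℂ → ℂ), BlockData σ Φ₀ Φ₁ ∧
    Real.pi * (2 + 2 * m) < 6 * √3 * σ ∧
    6 * √3 * σ ≤ Real.pi * ((3 + 2 * m) * (1 + dl m)) ∧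
    (Odd m → 6 * √3 * σ ≤ Real.pi * (3 + 2 * m)) := by
  have hp := dl_pos m
  have hl := dl_le m hm
  have hs := sqrt3_pos
  have hpi := Real.pi_pos
  have hpi3 := Real.pi_gt_three
  have hmul := dl_mul m hm
  have hm' : (1:ℝ) ≤ m := by exact_mod_cast hm
  have h3l := sqrt3_lb
  have eθ : Real.pi * (1 + m / 3) - Real.pi / 2 = Real.pi * (3 + 2 * m) / 6 := by ring
  rcases Nat.even_or_odd m with he | ho
  · obtain ⟨t, ht1, ht2, hG⟩ := exists_gt_one (by linarith) (GG_hi m hm)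
    have hb := bounds_gt ht1 hG
    rw [eθ] at hb
    refine ⟨t * KK t, _, _, block_of_root (ε := -1) (by linarith) ht1.ne'
      (by rw [abs_of_neg (by linarith)]; ring) hG (zeta_cube_even m he), ?_, ?_, ?_⟩
    · have h2 : (t ^ 2 - 1) ≤ 1/8 := by nlinarith
      have h3 : 6 * (t ^ 2 - 1) / √3 ≤ 6 * (1/8) / √3 := by gcongr
      have h4 : 6 * (1/8) / √3 < 1 := by rw [div_lt_one hs]; linarith
      have h5 : Real.pi * (3 + 2 * m) ≤ 6 * t * (Real.pi * (3 + 2 * m) / 6) := by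
        have : 6 * t * (Real.pi * (3 + 2 * m) / 6) = t * (Real.pi * (3 + 2 * m)) := by ring
        rw [this]
        nlinarith [mul_pos hpi (show (0:ℝ) < 3 + 2 * m by linarith)]
      nlinarith
    · refine le_trans hb.1 ?_
      have : 6 * t * (Real.pi * (3 + 2 * m) / 6) = (Real.pi * (3 + 2 * m)) * t := by ring
      rw [this, ← mul_assoc]
      exact mul_le_mul_of_nonneg_left ht2 (by positivity)
    · intro ho; exact absurd he (Nat.not_even_iff_odd.mpr ho)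
  · obtain ⟨t, ht1, ht2, hG⟩ := exists_lt_one (by linarith) (by linarith) (GG_lo m hm)
    have ht0 : 0 < t := by linarith
    have hb := bounds_lt ht0 ht2 hG
    rw [eθ] at hb
    have hub : 6 * √3 * (t * KK t) ≤ Real.pi * (3 + 2 * m) := by
      refine le_trans hb.2 ?_
      have e1 : 6 * t * (Real.pi * (3 + 2 * m) / 6) = t * (Real.pi * (3 + 2 * m)) := by ring
      have h2 : 6 * (1 - t ^ 2) / √3 ≤ (1 - t) * (Real.pi * (3 + 2 * m)) := by
        rw [div_le_iff₀ hs]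
        have h3 : 12 ≤ Real.pi * (3 + 2 * m) * √3 := by nlinarith [mul_pos hpi hs]
        nlinarith [mul_nonneg (by linarith : (0:ℝ) ≤ 1 - t) (by linarith : (0:ℝ) ≤ Real.pi * (3 + 2 * m) * √3 - 12)]
      rw [e1]; linarith
    refine ⟨t * KK t, _, _, block_of_root (ε := 1) ht0 ht2.ne
      (by rw [abs_of_pos (by linarith)]; ring) hG (zeta_cube_odd m ho), ?_, ?_, fun _ => hub⟩
    · refine lt_of_lt_of_le ?_ hb.1
      have e1 : 6 * t * (Real.pi * (3 + 2 * m) / 6) = Real.pi * ((3 + 2 * m) * t) := by ring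
      rw [e1]
      apply mul_lt_mul_of_pos_left _ hpi
      have : (3 + 2 * (m:ℝ)) * (1 - dl m) ≤ (3 + 2 * m) * t :=
        mul_le_mul_of_nonneg_left ht1 (by positivity)
      nlinarith
    · refine le_trans hub ?_
      apply mul_le_mul_of_nonneg_left _ hpi.le
      nlinarith [mul_pos (show (0:ℝ) < 3 + 2 * m by linarith) hp]

/-- the first block. -/
lemma exists_block_one : ∃ (σ : ℝ) (Φ₀ Φ₁ : ℂ → ℂ), BlockData σ Φ₀ Φ₁ ∧
    0 < 6 * √3 * σ ∧ 6 * √3 * σ ≤ Real.pi * (4 / 3) := by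
  have hs := sqrt3_pos
  have hpi := Real.pi_pos
  have hpi3 := Real.pi_gt_d2
  have h3l := sqrt3_lb
  have h3u := sqrt3_ub
  have hlow : GG (1/100) ≤ Real.pi * (2/3) := by
    have h := GG_le (t := 1/100) (by norm_num) (by norm_num) 1.8 0 (by
      have : |(1:ℝ) - 1/100| = 99/100 := by rw [abs_of_pos (by norm_num)]; norm_num
      rw [this, div_le_iff₀ (by norm_num)]; linarith) (by
      apply Real.arctan_le_zero.mpr
      unfold xx
      apply div_nonpos_of_nonpos_of_nonneg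
      · norm_num
      · positivity)
    have h2 : Real.log 1.8 ≤ 0.8 := by
      have := Real.log_le_sub_one_of_pos (x := 1.8) (by norm_num)
      linarith
    have h4 : Real.log 1.8 / √3 ≤ Real.pi / 6 := by
      rw [div_le_iff₀ hs]
      nlinarith
    linarith
  obtain ⟨t, ht1, ht2, hG⟩ := exists_lt_one (by norm_num) (by norm_num) hlow
  have ht0 : 0 < t := by linarith
  have hb := bounds_lt ht0 ht2 hG
  have eθ : Real.pi * (2/3) - Real.pi / 2 = Real.pi / 6 := by ring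
  rw [eθ] at hb
  have hζ : (((1:ℝ) : ℂ) * exp (-((Real.pi * (2/3) : ℝ) : ℂ) * I)) ^ 3 = 1 := by
    rw [mul_pow, ← Complex.exp_nat_mul]
    have : ((3:ℕ):ℂ) * (-((Real.pi * (2/3) : ℝ) : ℂ) * I)
        = ((-1 : ℤ) : ℂ) * (2 * Real.pi * I) := by
      push_cast; ring
    rw [this, Complex.exp_int_mul_two_pi_mul_I]; simp
  refine ⟨t * KK t, _, _, block_of_root (ε := 1) ht0 ht2.ne
      (by rw [abs_of_pos (by linarith)]; ring) hG hζ, ?_, ?_⟩
  · have := KK_pos ht0 ht2.ne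
    positivity
  · refine le_trans hb.2 ?_
    have e1 : 6 * (1 - t ^ 2) / √3 = 2 * √3 * (1 - t ^ 2) := by
      field_simp
      rw [pow_two √3, sq3]; ring
    have e2 : 6 * t * (Real.pi / 6) = Real.pi * t := by ring
    rw [e1, e2]
    -- `2√3 t² - π t + (4π/3 - 2√3) ≥ 0`
    have key : 0 ≤ 8 * √3 * (Real.pi * (4/3) - (Real.pi * t + 2 * √3 * (1 - t ^ 2))) := by
      have h33 := sq3
      have : 8 * √3 * (Real.pi * (4/3) - (Real.pi * t + 2 * √3 * (1 - t ^ 2)))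
          = (4 * √3 * t - Real.pi) ^ 2 + ((32/3) * √3 * Real.pi - Real.pi ^ 2 - 48) := by
        ring_nf
        rw [pow_two √3, sq3]; ring
      rw [this]
      have h5 : 0 ≤ (32/3) * √3 * Real.pi - Real.pi ^ 2 - 48 := by
        have hpi4 := Real.pi_lt_d2
        nlinarith
      positivity
    have h8 : 0 < 8 * √3 := by positivity
    have := nonneg_of_mul_nonneg_right key h8
    linarith

/-- the cubic mode -/
lemma isModel_cubic : IsModel (fun ξ => ξ ^ 3 + 2) 1 := by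
  have hd : ∀ ξ : ℂ, HasDerivAt (fun ξ : ℂ => ξ ^ 3 + 2) (3 * ξ ^ 2) ξ := by
    intro ξ
    have := (hasDerivAt_pow 3 ξ).add_const (2:ℂ)
    simpa using this
  have e1 : ∀ ξ : ℂ, om * (3 * (om * ξ) ^ 2) = 3 * ξ ^ 2 := by
    intro ξ
    calc om * (3 * (om * ξ) ^ 2) = om ^ 3 * (3 * ξ ^ 2) := by ring
      _ = 3 * ξ ^ 2 := by rw [om_cube, one_mul]
  have e2 : ∀ ξ : ℂ, (om * ξ) ^ 3 + 2 = ξ ^ 3 + 2 := by
    intro ξ; rw [mul_pow, om_cube, one_mul]
  have e3 : ∀ ξ : ℂ, om ^ 2 * (3 * (om ^ 2 * ξ) ^ 2) = 3 * ξ ^ 2 := by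
    intro ξ
    calc om ^ 2 * (3 * (om ^ 2 * ξ) ^ 2) = (om ^ 3) ^ 2 * (3 * ξ ^ 2) := by ring
      _ = 3 * ξ ^ 2 := by rw [om_cube]; ring
  have e4 : ∀ ξ : ℂ, (om ^ 2 * ξ) ^ 3 + 2 = ξ ^ 3 + 2 := by
    intro ξ
    calc (om ^ 2 * ξ) ^ 3 + 2 = (om ^ 3) ^ 2 * ξ ^ 3 + 2 := by ring
      _ = ξ ^ 3 + 2 := by rw [om_cube]; ring
  have main : ∀ y : ℝ, (3 * (1 + y * I) ^ 2).re = 1 * ((1 + y * I) ^ 3 + 2).re := by
    intro y
    simp [pow_succ]
    ring
  refine ⟨fun ξ => (hd ξ).differentiableAt, ?_, ?_, ?_⟩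
  · intro y; rw [(hd _).deriv]; exact main y
  · intro y; rw [(hd _).deriv, e1, e2]; exact main y
  · intro y; rw [(hd _).deriv, e3, e4]; exact main y

lemma isModel_one : IsModel (fun _ => 1) 0 := by
  refine ⟨differentiable_const _, ?_, ?_, ?_⟩ <;> intro y <;> simp

lemma mb_cubic_pos : 0 < mb (fun ξ => ξ ^ 3 + 2) (fun ξ => ξ ^ 3 + 2) := by
  apply mb_self_pos _ isModel_cubic.diff
  refine ⟨0, ⟨by linarith [sqrt3_pos], sqrt3_pos⟩, ?_⟩
  simp; norm_num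

lemma mb_one_pos : 0 < mb (fun _ => 1) (fun _ => 1) := by
  apply mb_self_pos _ isModel_one.diff
  exact ⟨0, ⟨by linarith [sqrt3_pos], sqrt3_pos⟩, by simp⟩

/-- upper bounds for the normalised eigenvalue of block `n`, in units of `π`. -/
noncomputable def ub (n : ℕ) : ℝ :=
  if n = 0 then 0 else if n = 1 then 4/3 else if n = 2 then 3.31 else if n = 3 then 5
    else (2 * n - 1) * (1 + dl (n - 2))

/-- All blocks. -/
lemma exists_blocks (n : ℕ) : ∃ (σ : ℝ) (Φ₀ Φ₁ : ℂ → ℂ), IsModel Φ₀ σ ∧ IsModel Φ₁ σ ∧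
    0 < mb Φ₀ Φ₀ ∧ 0 < mb Φ₁ Φ₁ ∧ (n ≠ 0 → n ≠ 2 → mb Φ₀ Φ₁ = 0) ∧
    Real.pi * (2 * n - 2) < 6 * √3 * σ ∧ 6 * √3 * σ < Real.pi * (2 * n + if n = 0 then 1 else 0)
    ∧ 6 * √3 * σ ≤ Real.pi * ub n ∧ 0 ≤ σ := by
  have hs := sqrt3_pos
  have hpi := Real.pi_pos
  have hpi3 := Real.pi_gt_three
  rcases n with _ | _ | _ | n
  · refine ⟨0, fun _ => 1, fun _ => 1, isModel_one, isModel_one, mb_one_pos, mb_one_pos,
      fun h => absurd rfl h, ?_, ?_, ?_, le_rfl⟩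
    · simp [hpi]
    · simp [hpi]
    · simp [ub]
  · obtain ⟨σ, Φ₀, Φ₁, hB, h1, h2⟩ := exists_block_one
    refine ⟨σ, Φ₀, Φ₁, hB.mod0, hB.mod1, hB.pos0, hB.pos1, fun _ _ => hB.orth, ?_, ?_, ?_, ?_⟩
    · simpa using h1
    · simp; linarith
    · simpa [ub] using h2
    · have : 0 < 6 * √3 := by positivity
      exact ((mul_pos_iff_of_pos_left this).mp h1).le
  · refine ⟨1, _, _, isModel_cubic, isModel_cubic, mb_cubic_pos, mb_cubic_pos,
      fun _ h => absurd rfl h, ?_, ?_, ?_, zero_le_one⟩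
    · have := sqrt3_lb
      have := Real.pi_lt_d2
      simp; linarith
    · have := sqrt3_ub
      have := Real.pi_gt_d2
      simp; linarith
    · have := sqrt3_ub
      have := Real.pi_gt_d6
      simp [ub]; linarith
  · obtain ⟨σ, Φ₀, Φ₁, hB, h1, h2, h3⟩ := exists_block_m (n + 1) (by omega)
    have hmul := dl_mul (n + 1) (by omega)
    push_cast at h1 h2 h3 hmul
    have hub : 6 * √3 * σ < Real.pi * (2 * ((n:ℝ) + 1 + 1 + 1)) := by
      refine lt_of_le_of_lt h2 ?_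
      apply mul_lt_mul_of_pos_left _ hpi
      nlinarith
    refine ⟨σ, Φ₀, Φ₁, hB.mod0, hB.mod1, hB.pos0, hB.pos1, fun _ _ => hB.orth, ?_, ?_, ?_, ?_⟩
    · push_cast
      refine lt_of_le_of_lt (le_of_eq ?_) h1
      ring
    · simpa using hub
    · unfold ub
      rcases n with _ | n
      · have h4 := h3 (by decide)
        simp at h4 ⊢
        linarith
      · rw [if_neg (by omega), if_neg (by omega), if_neg (by omega), if_neg (by omega)]
        refine le_trans h2 (le_of_eq ?_)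
        have : n + 1 + 1 + 1 + 1 - 2 = n + 1 + 1 := by omega
        rw [this]
        push_cast; ring
    · have h6 : 0 < 6 * √3 := by positivity
      have h7 : 0 < 6 * √3 * σ := lt_trans (by positivity) h1
      exact ((mul_pos_iff_of_pos_left h6).mp h7).le

end Pool.Agent.Steklov
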