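import Mathlib
import Pool.Agent.Steklov.Blocks

open MeasureTheory Set
open scoped ContDiff ComplexConjugate

namespace Pool.Agent.Steklov

/-- block index of the `k`-th function. -/
def blk (k : ℕ) : ℕ := if k ≤ 2 then (k + 1) / 2 else k / 2 + 1

/-- which of the two functions of the block -/
def par' (k : ℕ) : Prop := k = 2 ∨ (2 < k ∧ k % 2 = 1)

instance : DecidablePred par' := fun k => by unfold par'; infer_instance

lemma blk_mono {i k : ℕ} (h : i ≤ k) : blk i ≤ blk k := by
  unfold blk; split_ifs <;> omega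

lemma blk_eq {i j : ℕ} (hij : i ≠ j) (h : blk i = blk j) :
    blk i ≠ 0 ∧ blk i ≠ 2 ∧ ((par' i ∧ ¬ par' j) ∨ (¬ par' i ∧ par' j)) := by
  unfold blk at *
  unfold par'
  split_ifs at * <;> refine ⟨?_, ?_, ?_⟩ <;> omega

lemma mb_comm (Φ Ψ : ℂ → ℂ) : mb Φ Ψ = mb Ψ Φ := by
  have h : ∀ g : ℝ → ℂ, (∫ t in (0:ℝ)..1, (Φ (g t)).re * (Ψ (g t)).re)
      = ∫ t in (0:ℝ)..1, (Ψ (g t)).re * (Φ (g t)).re := by
    intro g
    apply intervalIntegral.integral_congr
    intro t _
    simp only
    ring
  unfold mb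
  rw [h (fun t => 1 + (√3 * (2 * t - 1) : ℝ) * Complex.I),
    h (fun t => om * (1 + (√3 * (2 * t - 1) : ℝ) * Complex.I)),
    h (fun t => om ^ 2 * (1 + (√3 * (2 * t - 1) : ℝ) * Complex.I))]

lemma perimeter_v (a b : ℂ) (ha : a ≠ 0) :
    perimeter (interior (convexHull ℝ {vA a b, vB a b, vC a b})) = 6 * √3 * ‖a‖ := by
  have h := integral_frontier_tri _ _ _ (cr_v_pos a b ha) (fun _ => 1) continuous_const
  rw [setIntegral_const, dirAB, dirBC, dirCA, norm_mul _ om, norm_mul _ (om ^ 2), norm_pow,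
    norm_om, norm_side] at h
  simp only [smul_eq_mul, mul_one, one_pow, intervalIntegral.integral_const, sub_zero] at h
  unfold perimeter
  rw [Measure.real] at h
  rw [h]; ring

/-- Upper bound for every Steklov eigenvalue of the equilateral triangle. -/
lemma steklov_bound (a b : ℂ) (ha : a ≠ 0) (k : ℕ) :
    steklovEigenvalue (interior (convexHull ℝ {vA a b, vB a b, vC a b})) k
      * perimeter (interior (convexHull ℝ {vA a b, vB a b, vC a b})) ≤ Real.pi * ub (blk k) := by
  choose σ Φ₀ Φ₁ hm0 hm1 hp0 hp1 hor hlo hhi hub hσ using exists_blocks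
  have hna : 0 < ‖a‖ := norm_pos_iff.mpr ha
  have hs := sqrt3_pos
  have hpi := Real.pi_pos
  have h6 : 0 < 6 * √3 := by positivity
  -- monotonicity
  have hmono : ∀ n n', n < n' → σ n < σ n' := by
    intro n n' hn
    have h1 : 6 * √3 * σ n < 6 * √3 * σ n' := by
      rcases Nat.eq_zero_or_pos n with h0 | h0
      · subst h0
        have h2 : 6 * √3 * σ 0 ≤ 0 := by simpa [ub] using hub 0
        have h3 := hlo n'
        have h4 : (1:ℝ) ≤ n' := by exact_mod_cast hn
        have h5 : 0 ≤ Real.pi * (2 * n' - 2) := mul_nonneg hpi.le (by linarith)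
        linarith
      · have h2 := hhi n
        rw [if_neg (by omega), add_zero] at h2
        have h3 := hlo n'
        have h4 : (n:ℝ) + 1 ≤ n' := by exact_mod_cast hn
        have h5 : Real.pi * (2 * n) ≤ Real.pi * (2 * n' - 2) :=
          mul_le_mul_of_nonneg_left (by linarith) hpi.le
        linarith
    exact lt_of_mul_lt_mul_left h1 h6.le
  have hmono' : ∀ n n', n ≤ n' → σ n ≤ σ n' := by
    intro n n' hn
    rcases hn.eq_or_lt with h | h
    · rw [h]
    · exact (hmono n n' h).le
  set Φ : ℕ → ℂ → ℂ := fun i => if par' i then Φ₁ (blk i) else Φ₀ (blk i) with hΦ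
  have hmod : ∀ i, IsModel (Φ i) (σ (blk i)) := by
    intro i
    simp only [hΦ]
    split_ifs
    · exact hm1 _
    · exact hm0 _
  have hpos : ∀ i, 0 < mb (Φ i) (Φ i) := by
    intro i
    simp only [hΦ]
    split_ifs
    · exact hp1 _
    · exact hp0 _
  set A := vA a b
  set B := vB a b
  set C := vC a b
  have hJ := cr_v_pos a b ha
  have hle : steklovEigenvalue (interior (convexHull ℝ {A, B, C})) k ≤ σ (blk k) / ‖a‖ := by
    apply steklov_le A B C hJ k (fun i => tr a b (Φ i)) (fun i => σ (blk i) / ‖a‖)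
    · intro i; exact isSteklov_tr a b ha _ _ (hmod i)
    · intro i
      have := hmono' _ _ (blk_mono (Nat.lt_succ_iff.mp i.2))
      gcongr
    · intro i j hij
      have hij' : (i:ℕ) ≠ j := fun h => hij (Fin.ext h)
      by_cases hb : blk i = blk j
      · obtain ⟨h0, h2, hpar⟩ := blk_eq hij' hb
        rw [bd_tr a b ha _ _ (hmod i).diff (hmod j).diff]
        have h01 := hor _ h0 h2
        rcases hpar with ⟨hi, hj⟩ | ⟨hi, hj⟩
        · simp only [hΦ, if_pos hi, if_neg hj]
          rw [← hb, mb_comm, h01, mul_zero]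
        · simp only [hΦ, if_neg hi, if_pos hj]
          rw [← hb, h01, mul_zero]
      · apply bd_eq_zero_of_ne A B C hJ _ _ _ _ (isSteklov_tr a b ha _ _ (hmod i))
          (isSteklov_tr a b ha _ _ (hmod j))
        intro heq
        have h3 : σ (blk i) = σ (blk j) := by
          field_simp at heq; exact heq
        rcases lt_or_gt_of_ne hb with h | h
        · exact (hmono _ _ h).ne h3
        · exact (hmono _ _ h).ne h3.symm
    · intro i
      rw [bd_tr a b ha _ _ (hmod i).diff (hmod i).diff]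
      have := hpos i
      positivity
  rw [perimeter_v a b ha]
  calc steklovEigenvalue (interior (convexHull ℝ {A, B, C})) k * (6 * √3 * ‖a‖)
      ≤ σ (blk k) / ‖a‖ * (6 * √3 * ‖a‖) := mul_le_mul_of_nonneg_right hle (by positivity)
    _ = 6 * √3 * σ (blk k) := by field_simp
    _ ≤ _ := hub _

/-- telescoping weight -/
noncomputable def ww (m : ℕ) : ℝ := (1 + 0.4 * m) / 2 ^ m

lemma ww_tel (m : ℕ) : (3 + 2 * m) * dl m = ww m - ww (m + 1) := by
  unfold ww dl
  rw [pow_succ]
  push_cast
  field_simp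
  ring

lemma ww_nonneg (m : ℕ) : 0 ≤ ww m := by unfold ww; positivity

/-- excess over the disk -/
noncomputable def ex (k : ℕ) : ℝ := ub (blk k) - 2 * (((k + 1) / 2 : ℕ) : ℝ)

lemma ex_even (j : ℕ) (hj : 3 ≤ j) : ex (2 * j) = 1 + (ww (j - 1) - ww j) := by
  obtain ⟨m, rfl⟩ : ∃ m, j = m + 3 := ⟨j - 3, by omega⟩
  have hb : blk (2 * (m + 3)) = m + 4 := by unfold blk; rw [if_neg (by omega)]; omega
  unfold ex
  rw [hb]
  have h2 : (2 * (m + 3) + 1) / 2 = m + 3 := by omega
  rw [h2]
  unfold ub
  rw [if_neg (by omega), if_neg (by omega), if_neg (by omega), if_neg (by omega)]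
  have e1 : m + 4 - 2 = m + 2 := by omega
  have e2 : m + 3 - 1 = m + 2 := by omega
  rw [e1, e2, ← ww_tel (m + 2)]
  push_cast; ring

lemma ex_odd (j : ℕ) (hj : 3 ≤ j) : ex (2 * j + 1) = -1 + (ww (j - 1) - ww j) := by
  obtain ⟨m, rfl⟩ : ∃ m, j = m + 3 := ⟨j - 3, by omega⟩
  have hb : blk (2 * (m + 3) + 1) = m + 4 := by unfold blk; rw [if_neg (by omega)]; omega
  unfold ex
  rw [hb]
  have h2 : (2 * (m + 3) + 1 + 1) / 2 = m + 4 := by omega
  rw [h2]
  unfold ub
  rw [if_neg (by omega), if_neg (by omega), if_neg (by omega), if_neg (by omega)]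
  have e1 : m + 4 - 2 = m + 2 := by omega
  have e2 : m + 3 - 1 = m + 2 := by omega
  rw [e1, e2, ← ww_tel (m + 2)]
  push_cast; ring

lemma sum_odd (j : ℕ) (hj : 2 ≤ j) :
    ∑ k ∈ Finset.Icc 1 (2 * j + 1), ex k ≤ -2.0233 + 2 * (ww 2 - ww j) := by
  induction j, hj using Nat.le_induction with
  | base =>
    have : (Finset.Icc 1 (2 * 2 + 1)) = ({1, 2, 3, 4, 5} : Finset ℕ) := by decide
    rw [this]
    simp [ex, ub, blk]
    norm_num
  | succ n hn ih =>
    have e : 2 * (n + 1) + 1 = (2 * n + 1) + 1 + 1 := by ring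
    rw [e, Finset.sum_Icc_succ_top (by omega), Finset.sum_Icc_succ_top (by omega)]
    have e1 : (2 * n + 1) + 1 = 2 * (n + 1) := by ring
    rw [e1, ex_even (n + 1) (by omega), ex_odd (n + 1) (by omega)]
    have e2 : n + 1 - 1 = n := by omega
    rw [e2]
    linarith

lemma sum_ex_nonpos (n : ℕ) : ∑ k ∈ Finset.Icc 1 n, ex k ≤ 0 := by
  have hw2 : ww 2 = 0.45 := by unfold ww; norm_num
  by_cases hn : n ≤ 5
  · interval_cases n
    · simp
    · simp [ex, ub, blk]; norm_num
    · have : (Finset.Icc 1 2) = ({1, 2} : Finset ℕ) := by decide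
      rw [this]
      simp [ex, ub, blk]; norm_num
    · have : (Finset.Icc 1 3) = ({1, 2, 3} : Finset ℕ) := by decide
      rw [this]
      simp [ex, ub, blk]; norm_num
    · have : (Finset.Icc 1 4) = ({1, 2, 3, 4} : Finset ℕ) := by decide
      rw [this]
      simp [ex, ub, blk]; norm_num
    · have : (Finset.Icc 1 5) = ({1, 2, 3, 4, 5} : Finset ℕ) := by decide
      rw [this]
      simp [ex, ub, blk]; norm_num
  · rcases Nat.even_or_odd' n with ⟨j, hj | hj⟩
    · obtain ⟨i, rfl⟩ : ∃ i, j = i + 1 := ⟨j - 1, by omega⟩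
      have e : n = (2 * i + 1) + 1 := by omega
      rw [e, Finset.sum_Icc_succ_top (by omega)]
      have h1 := sum_odd i (by omega)
      have e1 : (2 * i + 1) + 1 = 2 * (i + 1) := by ring
      rw [e1, ex_even (i + 1) (by omega)]
      have e2 : i + 1 - 1 = i := by omega
      rw [e2]
      have h3 := ww_nonneg i
      have h4 := ww_nonneg (i + 1)
      linarith
    · rw [hj]
      have h1 := sum_odd j (by omega)
      have h3 := ww_nonneg j
      linarith

lemma sum_v (a b : ℂ) (ha : a ≠ 0) (n : ℕ) :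
    (∑ k ∈ Finset.Icc 1 n,
      steklovEigenvalue (interior (convexHull ℝ {vA a b, vB a b, vC a b})) k)
      * perimeter (interior (convexHull ℝ {vA a b, vB a b, vC a b}))
      ≤ 2 * Real.pi * ∑ k ∈ Finset.Icc 1 n, (((k + 1) / 2 : ℕ) : ℝ) := by
  rw [Finset.sum_mul]
  calc ∑ k ∈ Finset.Icc 1 n,
        steklovEigenvalue (interior (convexHull ℝ {vA a b, vB a b, vC a b})) k
          * perimeter (interior (convexHull ℝ {vA a b, vB a b, vC a b}))
      ≤ ∑ k ∈ Finset.Icc 1 n, Real.pi * ub (blk k) :=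
        Finset.sum_le_sum fun k _ => steklov_bound a b ha k
    _ = Real.pi * (∑ k ∈ Finset.Icc 1 n, ex k)
        + 2 * Real.pi * ∑ k ∈ Finset.Icc 1 n, (((k + 1) / 2 : ℕ) : ℝ) := by
        rw [Finset.mul_sum, Finset.mul_sum, ← Finset.sum_add_distrib]
        apply Finset.sum_congr rfl
        intro k _
        unfold ex; ring
    _ ≤ _ := by
        have := mul_nonneg Real.pi_pos.le (neg_nonneg.mpr (sum_ex_nonpos n))
        linarith

/-- Every equilateral triangle is one of the model triangles. -/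
lemma exists_v (A B C : ℂ) (s : ℝ) (hs : 0 < s) (hAB : dist A B = s) (hBC : dist B C = s)
    (hCA : dist C A = s) : ∃ a b : ℂ, a ≠ 0 ∧
      ({A, B, C} : Set ℂ) = {vA a b, vB a b, vC a b} := by
  have key : ∀ X Y Z : ℂ, dist X Y = s → dist Y Z = s → dist Z X = s →
      0 < (Y.re - X.re) * (Z.im - X.im) - (Y.im - X.im) * (Z.re - X.re) →
      ∃ a b : ℂ, a ≠ 0 ∧ X = vA a b ∧ Y = vB a b ∧ Z = vC a b := by
    intro X Y Z h1 h2 h3 hpos
    have hsq : ∀ P Q : ℂ, dist P Q = s → (P.re - Q.re) ^ 2 + (P.im - Q.im) ^ 2 = s ^ 2 := by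
      intro P Q h
      rw [dist_eq_norm] at h
      have : ‖P - Q‖ ^ 2 = s ^ 2 := by rw [h]
      rw [Complex.sq_norm, Complex.normSq_apply] at this
      simp only [Complex.sub_re, Complex.sub_im] at this
      linarith
    have q1 := hsq X Y h1
    have q2 := hsq Y Z h2
    have q3 := hsq Z X h3
    have h33 := sq3
    have hs3 := sqrt3_pos
    -- e = Y - X, f = Z - X,  f = e * exp(iπ/3)
    set p := Y.re - X.re with hp
    set q := Y.im - X.im with hq
    set u := Z.re - X.re with hu
    set v := Z.im - X.im with hv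
    have r1 : p ^ 2 + q ^ 2 = s ^ 2 := by linarith [q1, (by ring : (X.re - Y.re) ^ 2 + (X.im - Y.im) ^ 2 = p ^ 2 + q ^ 2)]
    have r2 : (p - u) ^ 2 + (q - v) ^ 2 = s ^ 2 := by
      rw [← q2]; simp only [hp, hq, hu, hv]; ring
    have r3 : u ^ 2 + v ^ 2 = s ^ 2 := by
      rw [← q3]
    have dot : 2 * (p * u + q * v) = s ^ 2 := by linear_combination r1 + r3 - r2
    have cross2 : 4 * (p * v - q * u) ^ 2 = 3 * s ^ 4 := by
      have : (p * v - q * u) ^ 2 + (p * u + q * v) ^ 2 = (p ^ 2 + q ^ 2) * (u ^ 2 + v ^ 2) := by ring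
      rw [r1, r3] at this
      have h5 : 4 * (p * u + q * v) ^ 2 = s ^ 4 := by
        linear_combination (2 * (p * u + q * v) + s ^ 2) * dot
      linear_combination 4 * this - h5
    have cross : 2 * (p * v - q * u) = √3 * s ^ 2 := by
      have h5 : (2 * (p * v - q * u)) ^ 2 = (√3 * s ^ 2) ^ 2 := by
        calc (2 * (p * v - q * u)) ^ 2 = 4 * (p * v - q * u) ^ 2 := by ring
          _ = 3 * s ^ 4 := cross2
          _ = (√3 * √3) * s ^ 4 := by rw [h33]
          _ = (√3 * s ^ 2) ^ 2 := by ring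
      have h6 : 0 ≤ 2 * (p * v - q * u) := by linarith
      have h7 : 0 ≤ √3 * s ^ 2 := by positivity
      exact (pow_left_inj₀ h6 h7 two_ne_zero).mp h5
    have hs2 : 0 < s ^ 2 := by positivity
    have eu : 2 * u = p - √3 * q := by
      have : s ^ 2 * (2 * u) = s ^ 2 * (p - √3 * q) := by
        calc s ^ 2 * (2 * u) = 2 * ((p ^ 2 + q ^ 2) * u) := by rw [r1]; ring
          _ = p * (2 * (p * u + q * v)) - q * (2 * (p * v - q * u)) := by ring
          _ = s ^ 2 * (p - √3 * q) := by rw [dot, cross]; ring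
      exact mul_left_cancel₀ hs2.ne' this
    have ev : 2 * v = q + √3 * p := by
      have : s ^ 2 * (2 * v) = s ^ 2 * (q + √3 * p) := by
        calc s ^ 2 * (2 * v) = 2 * ((p ^ 2 + q ^ 2) * v) := by rw [r1]; ring
          _ = q * (2 * (p * u + q * v)) + p * (2 * (p * v - q * u)) := by ring
          _ = s ^ 2 * (q + √3 * p) := by rw [dot, cross]; ring
      exact mul_left_cancel₀ hs2.ne' this
    -- centre and scale
    refine ⟨⟨q / (2 * √3), -p / (2 * √3)⟩, ⟨(X.re + Y.re + Z.re) / 3, (X.im + Y.im + Z.im) / 3⟩,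
      ?_, ?_, ?_, ?_⟩
    · intro h
      have h1 := congrArg Complex.re h
      have h2 := congrArg Complex.im h
      simp only [Complex.zero_re, Complex.zero_im] at h1 h2
      have h3 : q = 0 := by
        rcases div_eq_zero_iff.mp h1 with h | h
        · exact h
        · linarith
      have h4 : p = 0 := by
        rcases div_eq_zero_iff.mp h2 with h | h
        · linarith
        · linarith
      rw [h3, h4] at r1
      nlinarith
    · have eq1 : Y.re = X.re + p := by rw [hp]; ring
      have eq2 : Y.im = X.im + q := by rw [hq]; ring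
      have eq3 : Z.re = X.re + u := by rw [hu]; ring
      have eq4 : Z.im = X.im + v := by rw [hv]; ring
      apply Complex.ext
      · simp [vA]
        rw [eq1, eq3]
        field_simp
        linear_combination (-1/2) * eu * 2 * √3 + q * h33
      · simp [vA]
        rw [eq2, eq4]
        field_simp
        linear_combination (-1/2) * ev * 2 * √3 - p * h33
    · have eq1 : Y.re = X.re + p := by rw [hp]; ring
      have eq2 : Y.im = X.im + q := by rw [hq]; ring
      have eq3 : Z.re = X.re + u := by rw [hu]; ring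
      have eq4 : Z.im = X.im + v := by rw [hv]; ring
      apply Complex.ext
      · simp [vB]
        rw [eq1, eq3]
        field_simp
        linear_combination (-1/2) * eu * 2 * √3 + q * h33
      · simp [vB]
        rw [eq2, eq4]
        field_simp
        linear_combination (-1/2) * ev * 2 * √3 - p * h33
    · have eq1 : Y.re = X.re + p := by rw [hp]; ring
      have eq2 : Y.im = X.im + q := by rw [hq]; ring
      have eq3 : Z.re = X.re + u := by rw [hu]; ring
      have eq4 : Z.im = X.im + v := by rw [hv]; ring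
      apply Complex.ext
      · simp [vC]
        rw [eq1, eq3]
        field_simp
        linear_combination eu * √3 - q * h33
      · simp [vC]
        rw [eq2, eq4]
        field_simp
        linear_combination ev * √3 + p * h33
  by_cases hpos : 0 < (B.re - A.re) * (C.im - A.im) - (B.im - A.im) * (C.re - A.re)
  · obtain ⟨a, b, ha, h1, h2, h3⟩ := key A B C hAB hBC hCA hpos
    exact ⟨a, b, ha, by rw [← h1, ← h2, ← h3]⟩
  · have hne : (B.re - A.re) * (C.im - A.im) - (B.im - A.im) * (C.re - A.re) ≠ 0 := by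
      intro h0
      have hsq : ∀ P Q : ℂ, dist P Q = s → (P.re - Q.re) ^ 2 + (P.im - Q.im) ^ 2 = s ^ 2 := by
        intro P Q h
        rw [dist_eq_norm] at h
        have : ‖P - Q‖ ^ 2 = s ^ 2 := by rw [h]
        rw [Complex.sq_norm, Complex.normSq_apply] at this
        simp only [Complex.sub_re, Complex.sub_im] at this
        linarith
      have q1 := hsq A B hAB
      have q2 := hsq B C hBC
      have q3 := hsq C A hCA
      have dot : 2 * ((B.re - A.re) * (C.re - A.re) + (B.im - A.im) * (C.im - A.im)) = s ^ 2 := by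
        linear_combination q1 + q3 - q2
      have lag : ((B.re - A.re) * (C.im - A.im) - (B.im - A.im) * (C.re - A.re)) ^ 2
          + ((B.re - A.re) * (C.re - A.re) + (B.im - A.im) * (C.im - A.im)) ^ 2
          = ((A.re - B.re) ^ 2 + (A.im - B.im) ^ 2) * ((C.re - A.re) ^ 2 + (C.im - A.im) ^ 2) := by
        ring
      rw [h0, q1, q3] at lag
      have h5 : 4 * ((B.re - A.re) * (C.re - A.re) + (B.im - A.im) * (C.im - A.im)) ^ 2 = s ^ 4 := by
        linear_combination (2 * ((B.re - A.re) * (C.re - A.re)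
          + (B.im - A.im) * (C.im - A.im)) + s ^ 2) * dot
      have hs4 : 0 < s ^ 4 := by positivity
      nlinarith
    have hpos' : 0 < (C.re - A.re) * (B.im - A.im) - (C.im - A.im) * (B.re - A.re) := by
      have : (B.re - A.re) * (C.im - A.im) - (B.im - A.im) * (C.re - A.re) < 0 :=
        lt_of_le_of_ne (not_lt.mp hpos) hne
      linarith
    obtain ⟨a, b, ha, h1, h2, h3⟩ := key A C B (by rw [dist_comm]; exact hCA)
      (by rw [dist_comm]; exact hBC) (by rw [dist_comm]; exact hAB) hpos'
    refine ⟨a, b, ha, ?_⟩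
    rw [← h1, ← h2, ← h3]
    ext z; simp; tauto

end Pool.Agent.Steklov
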